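import Mathlib

/-!
The pencil of cubics `y² + x y - x³ + k (x y + y - x²)`.
-/

namespace Pool.Agent.Work.MP_c5a777_ag.Five

section

variable {R : Type*} [CommRing R]

/-- `x y + y - x²` -/
def gq (x y : R) : R := x * y + y - x ^ 2

/-- `y² + x y - x³ + k (x y + y - x²)` -/
def hk (k x y : R) : R := y ^ 2 + x * y - x ^ 3 + k * gq x y

/-- `V(t) = (t - 2) (1 - 2 t)⁴` -/
def Vt (t : R) : R := (t - 2) * (1 - 2 * t) ^ 4

/-- the cofactor in `node_identity` -/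
def nodeCof (e x y : R) : R :=
  -x ^ 4 + x ^ 3 * y + (20 * e - 13) * x ^ 3 + (16 - 25 * e) * x ^ 2 * y +
    (108 - 175 * e) * x ^ 2 + (5 * e - 3) * x * y ^ 2 + (5 * e - 3) * x * y +
    (309 - 500 * e) * x + y ^ 3 + (3 - 5 * e) * y ^ 2 + (34 - 55 * e) * y + (377 - 610 * e)

theorem node_identity (e x y : R) (he : e ^ 2 + e = 1) :
    (y + e ^ 3 * x) ^ 5 - gq x y * (x + e ^ 4) ^ 5 =
      hk (5 * e - 3) x y * nodeCof e x y := by
  have h3 : e ^ 3 = 2 * e - 1 := by linear_combination (e - 1) * he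
  have h4 : e ^ 4 = 2 - 3 * e := by linear_combination (e ^ 2 - e + 2) * he
  unfold gq hk nodeCof gq
  rw [h3, h4]
  linear_combination (
    32*e^3*x^5 - 243*e^3*x^2 + 243*e^3*x*y + 243*e^3*y - 112*e^2*x^5 + 80*e^2*x^4*y +
    405*e^2*x^3 - 405*e^2*x^2*y + 1053*e^2*x^2 - 1458*e^2*x*y - 1053*e^2*y + 224*e*x^5 -
    240*e*x^4*y - 270*e*x^4 + 80*e*x^3*y^2 + 270*e*x^3*y - 1485*e*x^3 + 1755*e*x^2*y -
    2376*e*x^2 + 3861*e*x*y + 2376*e*y - 186*x^5 + 125*x^4*y - 65*x^4 - 50*x^3*y^2 - 100*x^3*y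
    + 470*x^3 + 15*x^2*y^3 + 75*x^2*y^2 - 680*x^2*y + 1099*x^2 + 250*x*y^2 - 1569*x*y + 25*y^3
    + 275*y^2 - 1099*y) * he

theorem five_identity (k x y : R) :
    (1 + x) ^ 2 * hk k x y =
      gq x y * (gq x y + x + 3 * x ^ 2 + k * (1 + x) ^ 2) - x ^ 5 := by
  unfold gq hk gq
  ring

end

end Pool.Agent.Work.MP_c5a777_ag.Five
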