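import Mathlib

/-!
The residue condition for a symbol of degree five at a discrete valuation ring.
-/

namespace Pool.Agent.Work.MP_c5a777_ag.Five

/-- The tame symbol of `a, b` at the discrete valuation ring `A` is a fifth power in the
residue field: writing `a = u π ^ m` and `b = w π ^ n` with `u, w` units and `π` a
uniformizer, the residue class of `(-1) ^ (m n) u ^ n w ^ (-m)` is a fifth power. -/
def TameFifth {L : Type*} [Field L] (A : ValuationSubring L) (a b : L) : Prop :=
  ∀ (π : A) (u w : Aˣ) (m n : ℤ), Irreducible π →
    a = ((u : A) : L) * ((π : A) : L) ^ m → b = ((w : A) : L) * ((π : A) : L) ^ n →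
    ∃ r : IsLocalRing.ResidueField A,
      r ^ 5 = (-1) ^ (m * n) * (IsLocalRing.residue A (u : A)) ^ n *
        (IsLocalRing.residue A (w : A)) ^ (-m)

end Pool.Agent.Work.MP_c5a777_ag.Five
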