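import Pool.Agent.Work.MP_c5a777_ag.Five.Model

/-!
The reduction of the integral model at a valuation ring of residue characteristic two.
-/

open Polynomial

namespace Pool.Agent.Work.MP_c5a777_ag.Five

section General

variable {R S : Type*} [CommRing R] [CommRing S]

/-- elements of `R[x]/(x⁵ - h)` are combinations of `1, x, …, x⁴` -/
theorem adjoin_repr {R : Type*} [CommRing R] (g : R[X]) (hg : g.Monic) (hd : g.natDegree = 5)
    (z : AdjoinRoot g) : ∃ a : Fin 5 → R, z = ∑ i : Fin 5, AdjoinRoot.of g (a i) *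
      AdjoinRoot.root g ^ (i : ℕ) := by
  refine ⟨fun i => (AdjoinRoot.modByMonicHom hg z).coeff i, ?_⟩
  have h1 := AdjoinRoot.mk_leftInverse hg z
  have h2 : (AdjoinRoot.modByMonicHom hg z).natDegree < 5 := by
    induction z using AdjoinRoot.induction_on with
    | ih p =>
      rw [AdjoinRoot.modByMonicHom_mk, ← hd]
      exact natDegree_modByMonic_lt _ hg (by rintro rfl; simp at hd)
  conv_lhs => rw [← h1, as_sum_range' _ 5 h2]
  rw [map_sum, Finset.sum_range]
  refine Finset.sum_congr rfl fun i _ => ?_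
  rw [← C_mul_X_pow_eq_monomial, map_mul, map_pow, AdjoinRoot.mk_C, AdjoinRoot.mk_X]

theorem sum_expand_eq_zero (G : Fin 5 → S[X])
    (h : ∑ i : Fin 5, expand S 5 (G i) * X ^ (i : ℕ) = 0) (i : Fin 5) : G i = 0 := by
  ext n
  have h1 := congrArg (fun p => coeff p (5 * n + i)) h
  simp only [finsetSum_coeff, coeff_zero] at h1
  rw [Finset.sum_eq_single i] at h1
  · rw [coeff_mul_X_pow, mul_comm 5 n, coeff_expand_mul (by norm_num)] at h1
    rw [h1, coeff_zero]
  · intro j _ hj
    rw [coeff_mul_X_pow']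
    split_ifs with hle
    · rw [coeff_expand (by norm_num), if_neg]
      rintro ⟨k, hk⟩
      apply hj
      apply Fin.ext
      have := i.2
      have := j.2
      omega
    · rfl
  · simp

theorem adjoin_ker [IsDomain S] (g : R[X]) (hg : g.Monic) (hd : g.natDegree = 5) (θ1 : R →+* S[X])
    (ρ : S[X]) (hρ : ρ ≠ 0) (θ : AdjoinRoot g →+* S[X])
    (h1 : ∀ a, θ (AdjoinRoot.of g a) = expand S 5 (θ1 a))
    (h2 : θ (AdjoinRoot.root g) = expand S 5 ρ * X) (z : AdjoinRoot g) (hz : θ z = 0) :
    z ∈ (RingHom.ker θ1).map (AdjoinRoot.of g) := by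
  obtain ⟨a, rfl⟩ := adjoin_repr g hg hd z
  have h3 : ∑ i : Fin 5, expand S 5 (θ1 (a i) * ρ ^ (i : ℕ)) * X ^ (i : ℕ) = 0 := by
    rw [← hz, map_sum]
    refine Finset.sum_congr rfl fun i _ => ?_
    simp only [map_mul, map_pow, h1, h2, mul_pow]
    ring
  refine Ideal.sum_mem _ fun i _ => Ideal.mul_mem_right _ _ (Ideal.mem_map_of_mem _ ?_)
  rw [RingHom.mem_ker]
  have := sum_expand_eq_zero _ h3 i
  exact (mul_eq_zero.1 this).resolve_right (pow_ne_zero _ hρ)

end General

section Red

variable {O : Type*} [CommRing O] [IsDomain O] [ValuationRing O]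

/-- the coefficientwise reduction -/
noncomputable def redB (O : Type*) [CommRing O] [IsDomain O] [ValuationRing O] :
    B3 O →+* (IsLocalRing.ResidueField O)[X][X][X] :=
  (mapRingHom (mapRingHom (mapRingHom (IsLocalRing.residue O))) :
    Polynomial (Polynomial (Polynomial O)) →+* _)

/-- the substitution `s ↦ u¹⁰ r⁵` -/
noncomputable def subS (k : Type*) [Field k] : k[X][X] →+* k[X][X] :=
  eval₂RingHom (C : k[X] →+* k[X][X]) (C (X ^ 10) * X ^ 5 : k[X][X])

/-- the substitution `w ↦ X - 1` -/
noncomputable def subW (k : Type*) [Field k] : k[X][X][X] →+* k[X][X][X] :=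
  eval₂RingHom (C : k[X][X] →+* k[X][X][X]) (X - 1 : k[X][X][X])

/-- the reduction before the substitution `X ↦ X⁵` -/
noncomputable def th1 (O : Type*) [CommRing O] [IsDomain O] [ValuationRing O] :
    B3 O →+* (IsLocalRing.ResidueField O)[X][X][X] :=
  (subW (IsLocalRing.ResidueField O)).comp
    ((mapRingHom (subS (IsLocalRing.ResidueField O))).comp (redB O))

/-- first part of the image of the root -/
noncomputable def rho1 (k : Type*) [Field k] : k[X][X][X] :=
  (X - 1) * C (X ^ 2 * C (X ^ 5))

theorem subS_inj (k : Type*) [Field k] : Function.Injective (subS k) := by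
  rw [injective_iff_map_eq_zero]
  intro p hp
  change p.comp (C (X ^ 10) * X ^ 5) = 0 at hp
  rcases comp_eq_zero_iff.1 hp with h | ⟨-, h⟩
  · exact h
  · exfalso
    have h1 := congrArg natDegree h
    rw [natDegree_C, natDegree_C_mul_X_pow] at h1
    · norm_num at h1
    · exact pow_ne_zero _ X_ne_zero

theorem subW_inj (k : Type*) [Field k] : Function.Injective (subW k) := by
  rw [injective_iff_map_eq_zero]
  intro p hp
  change p.comp (X - 1) = 0 at hp
  rcases comp_eq_zero_iff.1 hp with h | ⟨-, h⟩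
  · exact h
  · exfalso
    have h1 := congrArg natDegree h
    rw [natDegree_C] at h1
    have h2 : (X - 1 : k[X][X][X]) = X - C 1 := by rw [C_1]
    rw [h2, natDegree_X_sub_C] at h1
    norm_num at h1

theorem mem_map_three {O : Type*} [CommRing O] (I : Ideal O) (p : O[X][X][X])
    (h : ∀ n m l, ((p.coeff n).coeff m).coeff l ∈ I) :
    p ∈ ((I.map (C : O →+* O[X])).map (C : O[X] →+* O[X][X])).map
      (C : O[X][X] →+* O[X][X][X]) := by
  rw [Ideal.mem_map_C_iff]
  intro n
  rw [Ideal.mem_map_C_iff]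
  intro m
  rw [Ideal.mem_map_C_iff]
  exact h n m

theorem map_three_eq {O : Type*} [CommRing O] (I : Ideal O) :
    ((I.map (C : O →+* O[X])).map (C : O[X] →+* O[X][X])).map
      (C : O[X][X] →+* O[X][X][X]) = I.map (algebraMap O (B3 O)) := by
  rw [Ideal.map_map, Ideal.map_map]
  rfl

theorem coeff_of_red {O : Type*} [CommRing O] [IsDomain O] [ValuationRing O]
    (p : O[X][X][X]) (h : mapRingHom (mapRingHom (mapRingHom (IsLocalRing.residue O))) p = 0)
    (n m l : ℕ) : ((p.coeff n).coeff m).coeff l ∈ IsLocalRing.maximalIdeal O := by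
  have h1 := congrArg (fun p => ((p.coeff n).coeff m).coeff l) h
  simp only [coe_mapRingHom, coeff_map, coeff_zero] at h1
  exact (IsLocalRing.residue_eq_zero_iff _).1 h1

theorem mem_map_of_redB (a : B3 O) (h : redB O a = 0) :
    a ∈ (IsLocalRing.maximalIdeal O).map (algebraMap O (B3 O)) := by
  have h1 := mem_map_three (IsLocalRing.maximalIdeal O) a (coeff_of_red a h)
  have h2 := map_three_eq (IsLocalRing.maximalIdeal O)
  exact (le_of_eq h2) h1

theorem th1_ker (a : B3 O) (h : th1 O a = 0) :
    a ∈ (IsLocalRing.maximalIdeal O).map (algebraMap O (B3 O)) := by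
  apply mem_map_of_redB
  have h1 : mapRingHom (subS (IsLocalRing.ResidueField O)) (redB O a) = 0 :=
    (map_eq_zero_iff _ (subW_inj _)).1 h
  exact (map_eq_zero_iff _ (map_injective _ (subS_inj _))).1 h1

theorem th1_u : th1 O (bu O) = C (C X) := by
  change subW _ (mapRingHom (subS _) ((mapRingHom (mapRingHom (mapRingHom
    (IsLocalRing.residue O)))) (C (C X)))) = _
  simp [subW, subS]

theorem th1_s : th1 O (bs O) = C (C (X ^ 10) * X ^ 5) := by
  change subW _ (mapRingHom (subS _) ((mapRingHom (mapRingHom (mapRingHom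
    (IsLocalRing.residue O)))) (C X))) = _
  have h1 : mapRingHom (subS (IsLocalRing.ResidueField O)) ((mapRingHom (mapRingHom (mapRingHom
    (IsLocalRing.residue O)))) (C X)) = C (C (X ^ 10) * X ^ 5) := by
    simp [subS]
  rw [h1]
  exact eval₂_C _ _

theorem th1_w : th1 O (bw O) = X - 1 := by
  change subW _ (mapRingHom (subS _) ((mapRingHom (mapRingHom (mapRingHom
    (IsLocalRing.residue O)))) X)) = _
  simp [subW, subS]

theorem th1_alg (a : O) : th1 O (algebraMap O (B3 O) a) =
    C (C (C (IsLocalRing.residue O a))) := by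
  change subW _ (mapRingHom (subS _) ((mapRingHom (mapRingHom (mapRingHom
    (IsLocalRing.residue O)))) (C (C (C a))))) = _
  simp [subW, subS]

variable (c d : O) (h2 : (2 : O) ∈ IsLocalRing.maximalIdeal O)

include h2 in
theorem two_zero : (2 : (IsLocalRing.ResidueField O)[X][X][X]) = 0 := by
  have h : IsLocalRing.residue O 2 = 0 := (IsLocalRing.residue_eq_zero_iff _).2 h2
  rw [map_ofNat] at h
  have h3 := congrArg (fun z => (C (C (C z)) : (IsLocalRing.ResidueField O)[X][X][X])) h
  simp only [map_ofNat, map_zero] at h3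
  exact h3

include h2 in
theorem th1_HH : th1 O (HH O c d) = rho1 (IsLocalRing.ResidueField O) ^ 5 * X := by
  have h0 := two_zero (O := O) h2
  have hm := map_pH (S' := (IsLocalRing.ResidueField O)[X][X][X]) (th1 O) (algebraMap O (B3 O) c) (algebraMap O (B3 O) d)
    (bu O) (bs O) (bw O)
  rw [th1_u, th1_s, th1_w, th1_alg, th1_alg] at hm
  refine hm.trans ?_
  have hV : ∀ t : (IsLocalRing.ResidueField O)[X][X][X], Vt t - t = 0 := by
    intro t
    unfold Vt
    rw [h0]
    ring
  unfold pH
  rw [hV]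
  unfold rho1
  simp only [map_mul, map_pow]
  ring

/-- `X ↦ X⁵` after the first reduction -/
noncomputable def th5 (O : Type*) [CommRing O] [IsDomain O] [ValuationRing O] :
    B3 O →+* (IsLocalRing.ResidueField O)[X][X][X] :=
  (expand ((IsLocalRing.ResidueField O)[X][X]) 5).toRingHom.comp (th1 O)

include h2 in
theorem theta_aux : (gT O c d).eval₂ (th5 O)
    (expand _ 5 (rho1 (IsLocalRing.ResidueField O)) * X) = 0 := by
  refine (eval_gT (S := (IsLocalRing.ResidueField O)[X][X][X]) O c d (th5 O) _).trans ?_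
  have h3 : th5 O (HH O c d) = expand _ 5 (rho1 (IsLocalRing.ResidueField O)) ^ 5 * X ^ 5 := by
    change expand _ 5 (th1 O (HH O c d)) = _
    rw [th1_HH c d h2, map_mul, map_pow, expand_X]
  rw [h3]
  ring

/-- the reduction of the model -/
noncomputable def theta : TT O c d →+* (IsLocalRing.ResidueField O)[X][X][X] :=
  AdjoinRoot.lift (th5 O) (expand _ 5 (rho1 (IsLocalRing.ResidueField O)) * X)
    (theta_aux c d h2)

theorem theta_of (a : B3 O) : theta c d h2 (AdjoinRoot.of _ a) = expand _ 5 (th1 O a) := by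
  unfold theta
  rw [AdjoinRoot.lift_of]
  rfl

theorem theta_root : theta c d h2 (AdjoinRoot.root _) =
    expand _ 5 (rho1 (IsLocalRing.ResidueField O)) * X := by
  unfold theta
  rw [AdjoinRoot.lift_root]

theorem rho1_ne (k : Type*) [Field k] : rho1 k ≠ 0 := by
  unfold rho1
  refine mul_ne_zero ?_ ?_
  · have h2 : (X - 1 : k[X][X][X]) = X - C 1 := by rw [C_1]
    rw [h2]; exact X_sub_C_ne_zero 1
  · rw [Ne, C_eq_zero]
    exact mul_ne_zero (pow_ne_zero _ X_ne_zero) (by
      rw [Ne, C_eq_zero]; exact pow_ne_zero _ X_ne_zero)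

theorem gT_natDegree {O : Type*} [CommRing O] [IsDomain O] (c d : O) :
    (gT O c d).natDegree = 5 := natDegree_X_pow_sub_C

/-- the kernel of the reduction -/
theorem theta_ker (z : TT O c d) (hz : theta c d h2 z = 0) :
    z ∈ (IsLocalRing.maximalIdeal O).map (algebraMap O (TT O c d)) := by
  have h1 := adjoin_ker (gT O c d) (gT_monic O c d) (gT_natDegree c d) (th1 O)
    (rho1 (IsLocalRing.ResidueField O)) (rho1_ne _) (theta c d h2) (theta_of c d h2)
    (theta_root c d h2) z hz
  have h3 : (RingHom.ker (th1 O)).map (AdjoinRoot.of (gT O c d)) ≤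
      (IsLocalRing.maximalIdeal O).map (algebraMap O (TT O c d)) := by
    rw [Ideal.map_le_iff_le_comap]
    intro a ha
    have h4 := th1_ker a ha
    have h5 : (IsLocalRing.maximalIdeal O).map (algebraMap O (TT O c d)) =
        ((IsLocalRing.maximalIdeal O).map (algebraMap O (B3 O))).map
          (AdjoinRoot.of (gT O c d)) := by
      rw [Ideal.map_map]
      rfl
    rw [Ideal.mem_comap, h5]
    exact Ideal.mem_map_of_mem _ h4
  exact h3 h1

end Red

end Pool.Agent.Work.MP_c5a777_ag.Five
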