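import Pool.Agent.Work.MP_c5a777_ag.Five.Param

/-!
The field `ℂ(u, T, p)` and explicit elements of it.
-/

namespace Pool.Agent.Work.MP_c5a777_ag.Five

/-- the polynomial ring `ℂ[u, T, p]` -/
abbrev PR : Type := MvPolynomial (Fin 3) ℂ
/-- the field `ℂ(u, T, p)` -/
abbrev FR : Type := FractionRing PR

/-- the point `(0, 1, 0)` -/
def pt0 : Fin 3 → ℂ := ![0, 1, 0]

/-- `f` is regular at the point `(0, 1, 0)` with value `a` -/
def Ev (f : FR) (a : ℂ) : Prop :=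
  ∃ n d : PR, MvPolynomial.eval pt0 d ≠ 0 ∧ f * algebraMap PR FR d = algebraMap PR FR n ∧
    MvPolynomial.eval pt0 n = a * MvPolynomial.eval pt0 d

theorem alg_ne {d : PR} (hd : MvPolynomial.eval pt0 d ≠ 0) : algebraMap PR FR d ≠ 0 := by
  intro h
  apply hd
  rw [(map_eq_zero_iff _ (IsFractionRing.injective PR FR)).1 h, map_zero]

namespace Ev

theorem of_pol (n : PR) : Ev (algebraMap PR FR n) (MvPolynomial.eval pt0 n) :=
  ⟨n, 1, by simp, by simp, by simp⟩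

theorem const (c : ℂ) : Ev (algebraMap ℂ FR c) c := by
  have h := of_pol (MvPolynomial.C c)
  rw [MvPolynomial.eval_C] at h
  have e : algebraMap PR FR (MvPolynomial.C c) = algebraMap ℂ FR c := by
    rw [IsScalarTower.algebraMap_apply ℂ PR FR]
    rfl
  rwa [e] at h

theorem add {f g : FR} {a b : ℂ} (hf : Ev f a) (hg : Ev g b) : Ev (f + g) (a + b) := by
  obtain ⟨n, d, h1, h2, h3⟩ := hf
  obtain ⟨n', d', h1', h2', h3'⟩ := hg
  refine ⟨n * d' + n' * d, d * d', ?_, ?_, ?_⟩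
  · rw [map_mul]; exact mul_ne_zero h1 h1'
  · rw [map_mul, map_add, map_mul, map_mul, ← h2, ← h2']; ring
  · rw [map_mul, map_add, map_mul, map_mul, h3, h3']; ring

theorem mul {f g : FR} {a b : ℂ} (hf : Ev f a) (hg : Ev g b) : Ev (f * g) (a * b) := by
  obtain ⟨n, d, h1, h2, h3⟩ := hf
  obtain ⟨n', d', h1', h2', h3'⟩ := hg
  refine ⟨n * n', d * d', ?_, ?_, ?_⟩
  · rw [map_mul]; exact mul_ne_zero h1 h1'
  · rw [map_mul, map_mul, ← h2, ← h2']; ring
  · rw [map_mul, map_mul, h3, h3']; ring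

theorem neg {f : FR} {a : ℂ} (hf : Ev f a) : Ev (-f) (-a) := by
  obtain ⟨n, d, h1, h2, h3⟩ := hf
  refine ⟨-n, d, h1, ?_, ?_⟩
  · rw [map_neg, ← h2]; ring
  · rw [map_neg, h3]; ring

theorem sub {f g : FR} {a b : ℂ} (hf : Ev f a) (hg : Ev g b) : Ev (f - g) (a - b) := by
  rw [sub_eq_add_neg, sub_eq_add_neg]
  exact hf.add hg.neg

theorem one : Ev 1 1 := by
  have := const 1
  rwa [map_one] at this

theorem ofNat (n : ℕ) [n.AtLeastTwo] : Ev (OfNat.ofNat n) (OfNat.ofNat n) := by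
  have := const (OfNat.ofNat n)
  rwa [map_ofNat] at this

theorem pow {f : FR} {a : ℂ} (hf : Ev f a) (n : ℕ) : Ev (f ^ n) (a ^ n) := by
  induction n with
  | zero => rw [pow_zero, pow_zero]; exact one
  | succ n ih => rw [pow_succ, pow_succ]; exact ih.mul hf

theorem inv {f : FR} {a : ℂ} (hf : Ev f a) (ha : a ≠ 0) : Ev f⁻¹ a⁻¹ := by
  obtain ⟨n, d, h1, h2, h3⟩ := hf
  have hn : MvPolynomial.eval pt0 n ≠ 0 := by rw [h3]; exact mul_ne_zero ha h1
  refine ⟨d, n, hn, ?_, ?_⟩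
  · have hd' := alg_ne h1
    have hn' := alg_ne hn
    have hf : f ≠ 0 := by
      rintro rfl
      rw [zero_mul] at h2
      exact hn' h2.symm
    rw [← h2, ← mul_assoc, inv_mul_cancel₀ hf, one_mul]
  · rw [h3, ← mul_assoc, inv_mul_cancel₀ ha, one_mul]

theorem div {f g : FR} {a b : ℂ} (hf : Ev f a) (hg : Ev g b) (hb : b ≠ 0) :
    Ev (f / g) (a / b) := by
  rw [div_eq_mul_inv, div_eq_mul_inv]
  exact hf.mul (hg.inv hb)

theorem ne_zero {f : FR} {a : ℂ} (hf : Ev f a) (ha : a ≠ 0) : f ≠ 0 := by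
  rintro rfl
  obtain ⟨n, d, h1, h2, h3⟩ := hf
  rw [zero_mul] at h2
  rw [(map_eq_zero_iff _ (IsFractionRing.injective PR FR)).1 h2.symm, map_zero] at h3
  exact (mul_ne_zero ha h1) h3.symm

theorem congr {f : FR} {a b : ℂ} (hf : Ev f a) (h : a = b) : Ev f b := h ▸ hf

end Ev

/-- the variable `u` -/
noncomputable def gu : FR := algebraMap PR FR (MvPolynomial.X 0)
/-- the variable `T` -/
noncomputable def gT' : FR := algebraMap PR FR (MvPolynomial.X 1)
/-- the variable `p` -/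
noncomputable def gp : FR := algebraMap PR FR (MvPolynomial.X 2)

theorem ev_u : Ev gu 0 := by
  have := Ev.of_pol (MvPolynomial.X 0)
  rwa [MvPolynomial.eval_X] at this

theorem ev_T : Ev gT' 1 := by
  have := Ev.of_pol (MvPolynomial.X 1)
  rwa [MvPolynomial.eval_X] at this

theorem ev_p : Ev gp 0 := by
  have := Ev.of_pol (MvPolynomial.X 2)
  rwa [MvPolynomial.eval_X] at this

section

variable (z : ℂ)

/-- `z` in the big field -/
noncomputable def gz : FR := algebraMap ℂ FR z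

theorem ev_z : Ev (gz z) z := Ev.const z

/-- `e = z + z⁴` -/
noncomputable def ge : FR := gz z + gz z ^ 4

/-- the base parameter `t = u⁵` -/
noncomputable def gt : FR := gu ^ 5

/-- `c t - c' V(t)` -/
noncomputable def gden : FR := (5 * ge z - 3) * gt - (-8 - 5 * ge z) * Vt gt

/-- the parameter of the pencil -/
noncomputable def gb : FR := (Vt gt - gt) / gden z

theorem ev_e : Ev (ge z) (z + z ^ 4) := (ev_z z).add ((ev_z z).pow 4)

theorem ev_t : Ev gt 0 := (ev_u.pow 5).congr (by norm_num)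

theorem ev_V : Ev (Vt gt) (-2) :=
  ((ev_t.sub (Ev.ofNat 2)).mul ((Ev.one.sub ((Ev.ofNat 2).mul ev_t)).pow 4)).congr (by norm_num)

theorem ev_den : Ev (gden z) (2 * (-8 - 5 * (z + z ^ 4))) :=
  ((((Ev.ofNat 5).mul (ev_e z)).sub (Ev.ofNat 3)).mul ev_t |>.sub
    ((((Ev.ofNat 8).neg).sub ((Ev.ofNat 5).mul (ev_e z))).mul ev_V)).congr (by ring)

variable (hz : z ^ 4 + z ^ 3 + z ^ 2 + z + 1 = 0)

include hz

theorem cprod : (5 * (z + z ^ 4) - 3) * (-8 - 5 * (z + z ^ 4)) = -1 := by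
  have h := e_rel z hz
  linear_combination (-25) * h

theorem c'_ne : (-8 - 5 * (z + z ^ 4)) ≠ 0 := by
  intro h
  have := cprod z hz
  rw [h, mul_zero] at this
  norm_num at this

theorem c_ne : (5 * (z + z ^ 4) - 3) ≠ 0 := by
  intro h
  have := cprod z hz
  rw [h, zero_mul] at this
  norm_num at this

theorem gden_ne : gden z ≠ 0 := (ev_den z).ne_zero (mul_ne_zero two_ne_zero (c'_ne z hz))

theorem ev_b : Ev (gb z) (5 * (z + z ^ 4) - 3) := by
  refine ((ev_V.sub ev_t).div (ev_den z) (mul_ne_zero two_ne_zero (c'_ne z hz))).congr ?_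
  have h1 := c'_ne z hz
  have h2 := cprod z hz
  rw [div_eq_iff (mul_ne_zero two_ne_zero h1)]
  linear_combination (-2) * h2

theorem z4_ne : 1 - z ^ 4 ≠ 0 := by
  intro h
  have h5 : z ^ 5 = 1 := by linear_combination (z - 1) * hz
  have h1 : z = 1 := by
    have : z * z ^ 4 = 1 := by rw [← h5]; ring
    rw [← sub_eq_zero.1 h, mul_one] at this
    exact this
  rw [h1] at hz
  norm_num at hz

omit hz in
theorem hzF (hz : z ^ 4 + z ^ 3 + z ^ 2 + z + 1 = 0) :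
    gz z ^ 4 + gz z ^ 3 + gz z ^ 2 + gz z + 1 = 0 := by
  have := congrArg (algebraMap ℂ FR) hz
  simp only [map_add, map_pow, map_one, map_zero] at this
  exact this

omit hz in
theorem ev_Tz : Ev (gT' - gz z ^ 4) (1 - z ^ 4) := ev_T.sub ((ev_z z).pow 4)

theorem Tz_ne' : gT' - gz z ^ 4 ≠ 0 := (ev_Tz z).ne_zero (z4_ne z hz)

theorem ev_m0 : Ev (cm0 (gz z) gT') 0 := by
  refine (((ev_z z).mul (Ev.one.sub ev_T)).div (ev_Tz z) (z4_ne z hz)).congr ?_
  simp

theorem ev_q : Ev (fq (gb z) gT' (gz z)) ((1 - z ^ 4) * (5 * (z + z ^ 4) - 3)) := by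
  have hz1 := ev_z z
  have hb := ev_b z hz
  refine ((((((hz1.sub Ev.one).mul (ev_T.pow 3)).add (hb.mul (ev_T.pow 2))).add
    (((((Ev.ofNat 2).sub ((Ev.ofNat 2).mul hz1)).sub (hz1.pow 2)).sub (hz1.pow 3)).mul
      (ev_T.pow 2))).sub (((hz1.pow 4).mul hb).mul ev_T)).add
    (((((Ev.ofNat 2).mul hz1).add ((Ev.ofNat 2).mul (hz1.pow 2))).add
      ((Ev.ofNat 3).mul (hz1.pow 3))).mul ev_T) |>.add
    (((Ev.one.neg.sub hz1).sub (hz1.pow 2)).sub ((Ev.ofNat 2).mul (hz1.pow 3)))).congr ?_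
  ring

theorem ev_Z0 : Ev (cZ0 (gz z) (gb z) gT') (5 * (z + z ^ 4) - 3) := by
  refine ((ev_q z hz).div (ev_Tz z) (z4_ne z hz)).congr ?_
  rw [mul_div_assoc, mul_comm, div_mul_cancel₀ _ (z4_ne z hz)]

omit hz in
theorem ev_A2 : Ev (fA2 (ge z) gT') (fA2 (z + z ^ 4) 1) := by
  have he := ev_e z
  exact (((((ev_T.pow 4).add ((Ev.ofNat 4).mul (ev_T.pow 3))).sub
    (((Ev.ofNat 6).mul (Ev.one.add he)).mul (ev_T.pow 2))).add
    (((Ev.ofNat 4).mul (Ev.one.add he)).mul ev_T)).sub ((Ev.ofNat 2).sub he))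

omit hz in
theorem ev_D : Ev (cD (gz z) gT' gp) 1 :=
  (Ev.one.sub ((ev_A2 z).mul (ev_p.pow 2))).congr (by norm_num)

omit hz in
theorem D_ne : cD (gz z) gT' gp ≠ 0 := (ev_D z).ne_zero one_ne_zero

theorem ev_A1 : Ev (fA1 (ge z) (gb z) gT') (fA1 (z + z ^ 4) (5 * (z + z ^ 4) - 3) 1) := by
  have he := ev_e z
  have hb := ev_b z hz
  exact (((((((Ev.ofNat 2).mul (ev_T.pow 4)).sub (((Ev.ofNat 2).mul (ev_T.pow 3)).mul hb)).add
    ((((Ev.ofNat 4).mul he).sub (Ev.ofNat 6)).mul (ev_T.pow 3))).add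
    (((Ev.ofNat 6).sub ((Ev.ofNat 6).mul he)).mul (ev_T.pow 2))).add
    ((((Ev.ofNat 2).add ((Ev.ofNat 2).mul he)).mul ev_T).mul hb)).sub
    (((Ev.ofNat 2).sub ((Ev.ofNat 2).mul he)).mul ev_T))

/-- the coordinate `m` -/
noncomputable def gm (z : ℂ) : FR := cm (gz z) (gb z) gT' gp
/-- the coordinate `x` -/
noncomputable def gx (z : ℂ) : FR := cx (gz z) (gb z) gT' gp
/-- the coordinate `y` -/
noncomputable def gy (z : ℂ) : FR := cy (gz z) (gb z) gT' gp

theorem ev_m : Ev (gm z) 0 := by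
  refine ((((ev_m0 z hz).sub (((Ev.ofNat 2).mul (ev_Z0 z hz)).mul ev_p)).add
    ((((ev_A2 z).mul (ev_m0 z hz)).add (ev_A1 z hz)).mul (ev_p.pow 2))).div (ev_D z)
      one_ne_zero).congr ?_
  ring

theorem ev_Z : Ev (cZ (gz z) (gb z) gT' gp) (-(5 * (z + z ^ 4) - 3)) := by
  refine (((((ev_Z0 z hz).neg).add ((((Ev.ofNat 2).mul (ev_A2 z)).mul (ev_m0 z hz)).add
    (ev_A1 z hz) |>.mul ev_p)).sub (((ev_Z0 z hz).mul (ev_A2 z)).mul (ev_p.pow 2))).div
      (ev_D z) one_ne_zero).congr ?_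
  ring

theorem ev_m1 : Ev (gm z + 1) 1 := ((ev_m z hz).add Ev.one).congr (by ring)

theorem m1_ne : gm z + 1 ≠ 0 := (ev_m1 z hz).ne_zero one_ne_zero

theorem ev_a1 : Ev (fa1 (ge z) (gb z) gT' (gm z)) (-(5 * (z + z ^ 4) - 3)) := by
  have he := ev_e z
  have hb := ev_b z hz
  have hm := ev_m z hz
  refine ((((((ev_T.pow 2).add ((Ev.ofNat 2).mul ev_T)).sub Ev.one).sub he).mul (hm.pow 2)
    |>.add ((((((Ev.ofNat 2).mul (ev_T.pow 2)).sub (ev_T.mul hb)).add
      ((((Ev.ofNat 2).mul he).sub (Ev.ofNat 3)).mul ev_T)).add (Ev.one.sub he)).mul hm)).add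
    (((ev_T.pow 2).sub (ev_T.mul hb)).sub ev_T)).congr ?_
  ring

theorem ev_x : Ev (gx z) (-(5 * (z + z ^ 4) - 3)) := by
  refine (((ev_a1 z hz).add ((ev_m1 z hz).mul (ev_Z z hz))).div (Ev.ofNat 2)
    two_ne_zero).congr ?_
  ring

theorem ev_al : Ev (fal (ge z) gT' (gm z)) (-1) := by
  have he := ev_e z
  have hm := ev_m z hz
  refine (((((ev_T.add Ev.one).neg).mul (hm.pow 2)).add
    (((Ev.one.sub he).sub ((Ev.ofNat 2).mul ev_T)).mul hm)).sub ev_T).congr ?_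
  ring

theorem ev_b1 : Ev (fb1 (ge z) (gb z) gT' (gm z)) (-(5 * (z + z ^ 4) - 3)) := by
  have he := ev_e z
  have hb := ev_b z hz
  have hm := ev_m z hz
  refine ((((((((Ev.ofNat 2).add he).mul ev_T).sub (Ev.one.add he)).mul (hm.pow 4)).add
    (((((ev_T.neg).mul hb).add ((((Ev.ofNat 5).mul he).sub (Ev.ofNat 2)).mul ev_T)).sub he).mul
      (hm.pow 3))).add
    (((((((Ev.one.add he).neg).mul ev_T).mul hb).add ((Ev.one.sub he).mul ev_T)).sub
      (Ev.one.sub he)).mul (hm.pow 2))).sub ((((Ev.one.add he).mul ev_T).mul hb).mul hm) |>.sub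
    (ev_T.mul hb)).congr ?_
  ring

theorem ev_y : Ev (gy z) 0 := by
  refine ((((ev_al z hz).mul (ev_x z hz)).add (ev_b1 z hz)).div (ev_m1 z hz)
    one_ne_zero).congr ?_
  ring

theorem ev_G2 : Ev (fG2 (ge z) (gm z) (gx z) (gy z)) ((5 * (z + z ^ 4) - 3) ^ 2) := by
  have he := ev_e z
  have hm := ev_m z hz
  have hx := ev_x z hz
  have hy := ev_y z hz
  refine ((((((hm.add Ev.one).mul (hx.pow 2)).sub ((((Ev.one.add he).mul (hm.pow 3)).add
    ((((Ev.ofNat 2).mul he).sub Ev.one).mul (hm.pow 2))).mul hx)).sub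
    ((((hm.pow 2).add (he.mul hm)).add Ev.one).mul hy)).add
    ((Ev.one.add he).mul (hm.pow 5))).sub
    ((((Ev.ofNat 2).mul he).sub Ev.one).mul (hm.pow 3))).congr ?_
  ring

theorem G2_ne : fG2 (ge z) (gm z) (gx z) (gy z) ≠ 0 :=
  (ev_G2 z hz).ne_zero (pow_ne_zero 2 (c_ne z hz))

theorem ZZ0_ne : cZ (gz z) (gb z) gT' gp - cZ0 (gz z) (gb z) gT' ≠ 0 := by
  refine ((ev_Z z hz).sub (ev_Z0 z hz)).ne_zero ?_
  have := c_ne z hz
  intro h
  apply this
  linear_combination (-1 / 2) * h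

omit hz in
theorem two_neF : (2 : FR) ≠ 0 := (Ev.ofNat 2).ne_zero two_ne_zero

/-- the equation of the surface -/
theorem surfF : hk (gb z) (gx z) (gy z) = (gb z - (5 * ge z - 3)) * gm z ^ 5 :=
  surface (gz z) (gb z) gT' gp (hzF z hz) (Tz_ne' z hz) (D_ne z) two_neF (m1_ne z hz)

theorem T_F : gT' * fG2 (ge z) (gm z) (gx z) (gy z) = gm z ^ 5 - gq (gx z) (gy z) :=
  T_eq (gz z) (gb z) gT' gp (hzF z hz) (Tz_ne' z hz) (D_ne z) two_neF (m1_ne z hz)

omit hz in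
theorem Z_F : (gm z + 1) * cZ (gz z) (gb z) gT' gp =
    2 * gx z - fa1 (ge z) (gb z) gT' (gm z) := Z_eq (gz z) (gb z) gT' gp two_neF

omit hz in
theorem p_F : gp * (cZ (gz z) (gb z) gT' gp - cZ0 (gz z) (gb z) gT') =
    gm z - cm0 (gz z) gT' := p_eq (gz z) (gb z) gT' gp (D_ne z)

/-- a subfield containing the constants, `u`, `x`, `y`, `m` is everything -/
theorem top_of_mem (M : Subfield FR) (hc : ∀ a : ℂ, algebraMap ℂ FR a ∈ M) (hu : gu ∈ M)
    (hx : gx z ∈ M) (hy : gy z ∈ M) (hm : gm z ∈ M) (f : FR) : f ∈ M := by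
  have hn : ∀ n : ℕ, (n : FR) ∈ M := fun n => natCast_mem M n
  have h2 : ∀ n : ℕ, ∀ [n.AtLeastTwo], (OfNat.ofNat n : FR) ∈ M := by
    intro n _
    have := hc (OfNat.ofNat n)
    rwa [map_ofNat] at this
  have h1 : (1 : FR) ∈ M := M.one_mem
  have hz1 : gz z ∈ M := hc z
  have he : ge z ∈ M := M.add_mem hz1 (pow_mem hz1 4)
  have ht : gt ∈ M := pow_mem hu 5
  have hV : Vt gt ∈ M := mul_mem (sub_mem ht (h2 2))
    (pow_mem (sub_mem h1 (mul_mem (h2 2) ht)) 4)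
  have hb : gb z ∈ M := by
    refine div_mem (sub_mem hV ht) (sub_mem (mul_mem (sub_mem (mul_mem (h2 5) he) (h2 3)) ht)
      (mul_mem (sub_mem (neg_mem (h2 8)) (mul_mem (h2 5) he)) hV))
  have hG : fG2 (ge z) (gm z) (gx z) (gy z) ∈ M := by
    unfold fG2
    refine sub_mem (add_mem (sub_mem (sub_mem (mul_mem (add_mem hm h1) (pow_mem hx 2)) ?_) ?_)
      ?_) ?_
    · exact mul_mem (add_mem (mul_mem (add_mem h1 he) (pow_mem hm 3))
        (mul_mem (sub_mem (mul_mem (h2 2) he) h1) (pow_mem hm 2))) hx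
    · exact mul_mem (add_mem (add_mem (pow_mem hm 2) (mul_mem he hm)) h1) hy
    · exact mul_mem (add_mem h1 he) (pow_mem hm 5)
    · exact mul_mem (sub_mem (mul_mem (h2 2) he) h1) (pow_mem hm 3)
  have hg : gq (gx z) (gy z) ∈ M := sub_mem (add_mem (mul_mem hx hy) hy) (pow_mem hx 2)
  have hT : gT' ∈ M := by
    have : gT' = (gm z ^ 5 - gq (gx z) (gy z)) / fG2 (ge z) (gm z) (gx z) (gy z) := by
      rw [eq_div_iff (G2_ne z hz)]; exact T_F z hz
    rw [this]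
    exact div_mem (sub_mem (pow_mem hm 5) hg) hG
  have ha1 : fa1 (ge z) (gb z) gT' (gm z) ∈ M := by
    unfold fa1
    refine add_mem (add_mem (mul_mem ?_ (pow_mem hm 2)) (mul_mem ?_ hm)) ?_
    · exact sub_mem (sub_mem (add_mem (pow_mem hT 2) (mul_mem (h2 2) hT)) h1) he
    · exact add_mem (add_mem (sub_mem (mul_mem (h2 2) (pow_mem hT 2)) (mul_mem hT hb))
        (mul_mem (sub_mem (mul_mem (h2 2) he) (h2 3)) hT)) (sub_mem h1 he)
    · exact sub_mem (sub_mem (pow_mem hT 2) (mul_mem hT hb)) hT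
  have hZ : cZ (gz z) (gb z) gT' gp ∈ M := by
    have : cZ (gz z) (gb z) gT' gp =
        (2 * gx z - fa1 (ge z) (gb z) gT' (gm z)) / (gm z + 1) := by
      rw [eq_div_iff (m1_ne z hz), mul_comm]; exact Z_F z
    rw [this]
    exact div_mem (sub_mem (mul_mem (h2 2) hx) ha1) (add_mem hm h1)
  have hm0 : cm0 (gz z) gT' ∈ M := div_mem (mul_mem hz1 (sub_mem h1 hT))
    (sub_mem hT (pow_mem hz1 4))
  have hq : fq (gb z) gT' (gz z) ∈ M := by
    unfold fq
    refine add_mem (add_mem (sub_mem (add_mem (add_mem (mul_mem (sub_mem hz1 h1)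
      (pow_mem hT 3)) (mul_mem hb (pow_mem hT 2))) (mul_mem ?_ (pow_mem hT 2)))
      (mul_mem (mul_mem (pow_mem hz1 4) hb) hT)) (mul_mem ?_ hT)) ?_
    · exact sub_mem (sub_mem (sub_mem (h2 2) (mul_mem (h2 2) hz1)) (pow_mem hz1 2))
        (pow_mem hz1 3)
    · exact add_mem (add_mem (mul_mem (h2 2) hz1) (mul_mem (h2 2) (pow_mem hz1 2)))
        (mul_mem (h2 3) (pow_mem hz1 3))
    · exact sub_mem (sub_mem (sub_mem (neg_mem h1) hz1) (pow_mem hz1 2))
        (mul_mem (h2 2) (pow_mem hz1 3))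
  have hZ0 : cZ0 (gz z) (gb z) gT' ∈ M := div_mem hq (sub_mem hT (pow_mem hz1 4))
  have hp : gp ∈ M := by
    have : gp = (gm z - cm0 (gz z) gT') /
        (cZ (gz z) (gb z) gT' gp - cZ0 (gz z) (gb z) gT') := by
      rw [eq_div_iff (ZZ0_ne z hz)]; exact p_F z
    rw [this]
    exact div_mem (sub_mem hm hm0) (sub_mem hZ hZ0)
  have hpol : ∀ n : PR, algebraMap PR FR n ∈ M := by
    intro n
    induction n using MvPolynomial.induction_on with
    | C a =>
      have e : algebraMap PR FR (MvPolynomial.C a) = algebraMap ℂ FR a := by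
        rw [IsScalarTower.algebraMap_apply ℂ PR FR]
        rfl
      rw [e]; exact hc a
    | add p q hp' hq' => rw [map_add]; exact add_mem hp' hq'
    | mul_X p i hp' =>
      rw [map_mul]
      refine mul_mem hp' ?_
      fin_cases i
      · exact hu
      · exact hT
      · exact hp
  obtain ⟨a, b, hb', rfl⟩ := IsFractionRing.div_surjective (A := PR) f
  exact div_mem (hpol a) (hpol b)

end

end Pool.Agent.Work.MP_c5a777_ag.Five
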