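import Pool.Agent.Work.MP_c5a777_ag.Five.Big

/-!
Transcendence bases of the big field.
-/

namespace Pool.Agent.Work.MP_c5a777_ag.Five

theorem trdeg_FR : Algebra.trdeg ℂ FR = 3 := by
  have h1 : Algebra.trdeg ℂ PR = 3 := by
    have := MvPolynomial.trdeg_of_isDomain (ι := Fin 3) (S := ℂ)
    rw [this]
    simp
  have h := _root_.trdeg_add_eq ℂ PR (A := FR)
  have : Algebra.IsAlgebraic PR FR := IsLocalization.isAlgebraic _ (nonZeroDivisors PR)
  rw [h1, trdeg_eq_zero (R := PR), add_zero] at h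
  exact h.symm

theorem alg_of_top (S : Set FR)
    (h : ∀ M : Subfield FR, (∀ a : ℂ, algebraMap ℂ FR a ∈ M) → (∀ s ∈ S, s ∈ M) →
      (∀ f : FR, f ^ 5 ∈ M → f ∈ M) → ∀ f, f ∈ M) :
    Algebra.IsAlgebraic (IntermediateField.adjoin ℂ S) FR := by
  constructor
  intro f
  have h1 := h (algebraicClosure (IntermediateField.adjoin ℂ S) FR).toSubfield ?_ ?_ ?_ f
  · exact (mem_algebraicClosure_iff).1 h1
  · intro a
    exact (algebraicClosure (IntermediateField.adjoin ℂ S) FR).algebraMap_mem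
      ⟨algebraMap ℂ FR a, (IntermediateField.adjoin ℂ S).algebraMap_mem a⟩
  · intro s hs
    exact (algebraicClosure (IntermediateField.adjoin ℂ S) FR).algebraMap_mem
      ⟨s, IntermediateField.subset_adjoin _ _ hs⟩
  · intro g hg
    have h2 : IsAlgebraic (IntermediateField.adjoin ℂ S) (g ^ 5) :=
      (mem_algebraicClosure_iff).1 hg
    exact (mem_algebraicClosure_iff).2 (IsAlgebraic.of_pow (by norm_num) h2)

theorem indep_of_top (v : Fin 3 → FR)
    (h : ∀ M : Subfield FR, (∀ a : ℂ, algebraMap ℂ FR a ∈ M) → (∀ i, v i ∈ M) →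
      (∀ f : FR, f ^ 5 ∈ M → f ∈ M) → ∀ f, f ∈ M) : AlgebraicIndependent ℂ v := by
  have h1 := alg_of_top (Set.range v) (fun M h1 h2 h3 =>
    h M h1 (fun i => h2 _ ⟨i, rfl⟩) h3)
  have h2 : Algebra.IsAlgebraic (Algebra.adjoin ℂ (Set.range v)) FR :=
    IntermediateField.isAlgebraic_adjoin_iff_top.1 h1
  have h3 := Algebra.IsAlgebraic.isTranscendenceBasis_of_le_trdeg_of_finite ℂ v
    (by rw [trdeg_FR]; simp)
  exact h3.1

theorem gu_ne : gu ≠ 0 := by
  unfold gu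
  rw [Ne, map_eq_zero_iff _ (IsFractionRing.injective PR FR)]
  exact MvPolynomial.X_ne_zero 0

theorem gt_ne : gt ≠ 0 := pow_ne_zero 5 gu_ne

section

variable (z : ℂ) (hz : z ^ 4 + z ^ 3 + z ^ 2 + z + 1 = 0)

include hz

theorem erelF : ge z ^ 2 + ge z = 1 := e_rel (gz z) (hzF z hz)

theorem delta_sq : (10 * (z + z ^ 4) + 5) ^ 2 = 125 := by
  have h := e_rel z hz
  linear_combination 100 * h

theorem delta_ne : 10 * (z + z ^ 4) + 5 ≠ 0 := by
  intro h
  have := delta_sq z hz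
  rw [h] at this
  norm_num at this

omit hz in
theorem ge_eq : ge z = algebraMap ℂ FR (z + z ^ 4) := by
  unfold ge gz
  rw [map_add, map_pow]

omit hz in
theorem gc_eq : 5 * ge z - 3 = algebraMap ℂ FR (5 * (z + z ^ 4) - 3) := by
  rw [ge_eq, map_sub, map_mul, map_ofNat, map_ofNat]

omit hz in
theorem gc'_eq : -8 - 5 * ge z = algebraMap ℂ FR (-8 - 5 * (z + z ^ 4)) := by
  rw [ge_eq, map_sub, map_mul, map_neg, map_ofNat, map_ofNat]

omit hz in
theorem gdelta_eq : 10 * ge z + 5 = algebraMap ℂ FR (10 * (z + z ^ 4) + 5) := by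
  rw [ge_eq]
  simp only [map_add, map_mul, map_ofNat]

omit hz in
theorem alg_ne' {a : ℂ} (ha : a ≠ 0) : algebraMap ℂ FR a ≠ 0 := by
  rwa [Ne, map_eq_zero_iff _ (algebraMap ℂ FR).injective]

/-- the parameter of the pencil is not `c` -/
theorem b_sub_c : (gb z - (5 * ge z - 3)) * gden z =
    -((5 * ge z - 3) * (10 * ge z + 5) * gt) := by
  have h := erelF z hz
  have h1 := gden_ne z hz
  unfold gb
  rw [sub_mul, div_mul_cancel₀ _ h1]
  unfold gden
  linear_combination (25 * gt - 25 * Vt gt) * h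

theorem b_sub_c_ne : gb z - (5 * ge z - 3) ≠ 0 := by
  intro h
  have h1 := b_sub_c z hz
  rw [h, zero_mul] at h1
  have h2 : (5 * ge z - 3) * (10 * ge z + 5) * gt ≠ 0 := by
    refine mul_ne_zero (mul_ne_zero ?_ ?_) gt_ne
    · rw [gc_eq]; exact alg_ne' (c_ne z hz)
    · rw [gdelta_eq]; exact alg_ne' (delta_ne z hz)
  exact h2 (neg_eq_zero.1 h1.symm)

omit hz in
theorem b_mem (M : Subfield FR) (hc : ∀ a : ℂ, algebraMap ℂ FR a ∈ M) (hu : gu ∈ M) :
    gb z ∈ M := by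
  have h2 : ∀ n : ℕ, ∀ [n.AtLeastTwo], (OfNat.ofNat n : FR) ∈ M := by
    intro n _
    have := hc (OfNat.ofNat n)
    rwa [map_ofNat] at this
  have h1 : (1 : FR) ∈ M := M.one_mem
  have hz1 : gz z ∈ M := hc z
  have he : ge z ∈ M := M.add_mem hz1 (pow_mem hz1 4)
  have ht : gt ∈ M := pow_mem hu 5
  have hV : Vt gt ∈ M := mul_mem (sub_mem ht (h2 2))
    (pow_mem (sub_mem h1 (mul_mem (h2 2) ht)) 4)
  exact div_mem (sub_mem hV ht) (sub_mem (mul_mem (sub_mem (mul_mem (h2 5) he) (h2 3)) ht)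
      (mul_mem (sub_mem (neg_mem (h2 8)) (mul_mem (h2 5) he)) hV))

/-- `u, x, y` generate up to algebraic closure -/
theorem top_uxy (M : Subfield FR) (hc : ∀ a : ℂ, algebraMap ℂ FR a ∈ M) (hu : gu ∈ M)
    (hx : gx z ∈ M) (hy : gy z ∈ M) (h5 : ∀ f : FR, f ^ 5 ∈ M → f ∈ M) (f : FR) : f ∈ M := by
  refine top_of_mem z hz M hc hu hx hy (h5 _ ?_) f
  have hb := b_mem z M hc hu
  have h1 : gm z ^ 5 = hk (gb z) (gx z) (gy z) / (gb z - (5 * ge z - 3)) := by
    rw [eq_div_iff (b_sub_c_ne z hz), surfF z hz, mul_comm]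
  rw [h1]
  have hcM : 5 * ge z - 3 ∈ M := by rw [gc_eq]; exact hc _
  refine div_mem ?_ (sub_mem hb hcM)
  exact add_mem (sub_mem (add_mem (pow_mem hy 2) (mul_mem hx hy)) (pow_mem hx 3))
    (mul_mem hb (sub_mem (add_mem (mul_mem hx hy) hy) (pow_mem hx 2)))

theorem indep_uxy : AlgebraicIndependent ℂ ![gu, gx z, gy z] :=
  indep_of_top _ fun M hc hv h5 f =>
    top_uxy z hz M hc (hv 0) (hv 1) (hv 2) h5 f

theorem gx_ne : gx z ≠ 0 := (indep_uxy z hz).ne_zero 1

theorem gy_ne : gy z ≠ 0 := (indep_uxy z hz).ne_zero 2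

theorem x3_ne_y2 : gx z ^ 3 ≠ gy z ^ 2 := by
  intro h
  have h1 := indep_uxy z hz
  rw [algebraicIndependent_iff] at h1
  have h2 := h1 (MvPolynomial.X 1 ^ 3 - MvPolynomial.X 2 ^ 2) (by
    rw [map_sub, map_pow, map_pow, MvPolynomial.aeval_X, MvPolynomial.aeval_X]
    exact sub_eq_zero.2 h)
  have h3 := congrArg (MvPolynomial.eval ![(0 : ℂ), 1, 0]) h2
  simp at h3

/-- the coordinate `s = x³/y²` -/
noncomputable def gs (z : ℂ) : FR := gx z ^ 3 / gy z ^ 2

/-- the coordinate `w = (1 - s) y / x` -/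
noncomputable def gw (z : ℂ) : FR := (1 - gs z) * gy z / gx z

theorem one_sub_s_ne : 1 - gs z ≠ 0 := by
  intro h
  apply x3_ne_y2 z hz
  have := (sub_eq_zero.1 h).symm
  unfold gs at this
  rwa [div_eq_one_iff_eq (pow_ne_zero 2 (gy_ne z hz))] at this

theorem x_eq : (1 - gs z) ^ 2 * gx z = gs z * gw z ^ 2 := by
  have h1 := gx_ne z hz
  have h2 := gy_ne z hz
  have h3 : gs z * gy z ^ 2 = gx z ^ 3 := by
    unfold gs; exact div_mul_cancel₀ _ (pow_ne_zero 2 h2)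
  unfold gw
  rw [div_pow, mul_div_assoc', eq_div_iff (pow_ne_zero 2 h1)]
  linear_combination (-(1 - gs z) ^ 2) * h3

theorem y_eq : (1 - gs z) ^ 3 * gy z = gs z * gw z ^ 3 := by
  have h1 := gx_ne z hz
  have h2 := gy_ne z hz
  have h3 : gs z * gy z ^ 2 = gx z ^ 3 := by
    unfold gs; exact div_mul_cancel₀ _ (pow_ne_zero 2 h2)
  unfold gw
  rw [div_pow, mul_div_assoc', eq_div_iff (pow_ne_zero 3 h1)]
  linear_combination (-(1 - gs z) ^ 3 * gy z) * h3

theorem xy_mem (M : Subfield FR) (hs : gs z ∈ M) (hw : gw z ∈ M) : gx z ∈ M ∧ gy z ∈ M := by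
  have h1 := one_sub_s_ne z hz
  have hs1 : 1 - gs z ∈ M := sub_mem M.one_mem hs
  constructor
  · have : gx z = gs z * gw z ^ 2 / (1 - gs z) ^ 2 := by
      rw [eq_div_iff (pow_ne_zero 2 h1), mul_comm, x_eq z hz]
    rw [this]
    exact div_mem (mul_mem hs (pow_mem hw 2)) (pow_mem hs1 2)
  · have : gy z = gs z * gw z ^ 3 / (1 - gs z) ^ 3 := by
      rw [eq_div_iff (pow_ne_zero 3 h1), mul_comm, y_eq z hz]
    rw [this]
    exact div_mem (mul_mem hs (pow_mem hw 3)) (pow_mem hs1 3)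

theorem indep_usw : AlgebraicIndependent ℂ ![gu, gs z, gw z] :=
  indep_of_top _ fun M hc hv h5 f => by
    have h := xy_mem z hz M (hv 1) (hv 2)
    exact top_uxy z hz M hc (hv 0) h.1 h.2 h5 f

/-- the coordinate `λ` -/
noncomputable def gl (z : ℂ) : FR := -(ge z * gu * gm z)

/-- the relation `(10 e + 5) λ⁵ = c t h_{c'} - c' V h_c` -/
theorem rel_l : (10 * ge z + 5) * gl z ^ 5 =
    (5 * ge z - 3) * gt * hk (-8 - 5 * ge z) (gx z) (gy z) -
      (-8 - 5 * ge z) * Vt gt * hk (5 * ge z - 3) (gx z) (gy z) := by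
  have h := erelF z hz
  have hd := gden_ne z hz
  have h1 := surfF z hz
  have h2 := b_sub_c z hz
  have h5 : ge z ^ 5 = 5 * ge z - 3 := by
    linear_combination (ge z ^ 3 - ge z ^ 2 + 2 * ge z - 3) * h
  have hl : gl z ^ 5 = -((5 * ge z - 3) * gt * gm z ^ 5) := by
    unfold gl gt
    linear_combination (-(gu ^ 5 * gm z ^ 5)) * h5
  rw [hl]
  have hb : gb z * gden z = Vt gt - gt := by
    unfold gb; exact div_mul_cancel₀ _ hd
  have h3 : gden z * hk (gb z) (gx z) (gy z) = (5 * ge z - 3) * gt *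
      hk (-8 - 5 * ge z) (gx z) (gy z) -
      (-8 - 5 * ge z) * Vt gt * hk (5 * ge z - 3) (gx z) (gy z) := by
    have e1 : gden z * hk (gb z) (gx z) (gy z) = gden z * hk 0 (gx z) (gy z) +
      (gb z * gden z) * gq (gx z) (gy z) := by unfold hk; ring
    rw [e1, hb]
    unfold gden hk
    linear_combination (25 * gq (gx z) (gy z) * (gt - Vt gt)) * h
  rw [← h3, h1]
  linear_combination (-(gm z ^ 5)) * h2

end

end Pool.Agent.Work.MP_c5a777_ag.Five
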