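import Pool.Agent.Work.MP_c5a777_ag.Bd.B01
import Pool.Agent.Work.MP_c5a777_ag.Five.Trans

/-!
The integral model embeds in the big field, which is its field of fractions.
-/

open Polynomial

namespace Pool.Agent.Work.MP_c5a777_ag.Five

theorem isDomain_of_theta {O T Ω : Type*} [CommRing O] [IsDomain O] [ValuationRing O]
    [CommRing T] [Algebra O T] [Module.Free O T] [CommRing Ω] [IsDomain Ω] (θ : T →+* Ω)
    (hθ : ∀ z, θ z = 0 → z ∈ (IsLocalRing.maximalIdeal O).map (algebraMap O T)) :
    IsDomain T := by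
  have h1 : Nontrivial T := by
    refine ⟨0, 1, fun h => ?_⟩
    have := congrArg θ h
    rw [map_zero, map_one] at this
    exact zero_ne_one this
  have h2 : NoZeroDivisors T := by
    constructor
    intro a b hab
    by_contra hc
    push Not at hc
    obtain ⟨x, a', hx, ha, ha'⟩ := exists_primitive θ hθ a hc.1
    obtain ⟨y, b', hy, hb, hb'⟩ := exists_primitive θ hθ b hc.2
    have h3 : (x * y) • (a' * b') = 0 := by
      rw [← hab, ha, hb, smul_mul_smul_comm]
    rcases smul_eq_zero.1 h3 with h | h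
    · exact mul_ne_zero hx hy h
    · have := congrArg θ h
      rw [map_mul, map_zero] at this
      exact mul_ne_zero ha' hb' this
  exact IsDomain.mk

section Inj

/-- `ℂ[u][s][w] → ℂ[X₀, X₁, X₂]` -/
noncomputable def toMv : B3 ℂ →+* PR :=
  evB (MvPolynomial.C) (MvPolynomial.X 0) (MvPolynomial.X 1) (MvPolynomial.X 2)

/-- `ℂ[X₀, X₁, X₂] → ℂ[u][s][w]` -/
noncomputable def ofMv : PR →+* B3 ℂ :=
  MvPolynomial.eval₂Hom (algebraMap ℂ (B3 ℂ)) ![bu ℂ, bs ℂ, bw ℂ]

theorem ofMv_toMv (p : B3 ℂ) : ofMv (toMv p) = p := by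
  have h : ofMv.comp toMv = RingHom.id (B3 ℂ) := by
    refine B3_hom_ext ?_ ?_ ?_ ?_
    · intro a
      change ofMv (toMv (algebraMap ℂ (B3 ℂ) a)) = _
      unfold toMv ofMv
      rw [evB_alg, MvPolynomial.eval₂Hom_C]
      rfl
    · change ofMv (toMv (bu ℂ)) = _
      unfold toMv ofMv
      rw [evB_u, MvPolynomial.eval₂Hom_X']
      rfl
    · change ofMv (toMv (bs ℂ)) = _
      unfold toMv ofMv
      rw [evB_s, MvPolynomial.eval₂Hom_X']
      rfl
    · change ofMv (toMv (bw ℂ)) = _
      unfold toMv ofMv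
      rw [evB_w, MvPolynomial.eval₂Hom_X']
      rfl
  exact RingHom.congr_fun h p

theorem toMv_inj : Function.Injective toMv :=
  Function.LeftInverse.injective ofMv_toMv

variable (z : ℂ) (hz : z ^ 4 + z ^ 3 + z ^ 2 + z + 1 = 0)

/-- `ℂ[u][s][w] → ℂ(u, T, p)` -/
noncomputable def bC : B3 ℂ →+* FR := evB (algebraMap ℂ FR) gu (gs z) (gw z)

include hz in
theorem bC_inj : Function.Injective (bC z) := by
  have h : bC z = (MvPolynomial.aeval ![gu, gs z, gw z] : PR →ₐ[ℂ] FR).toRingHom.comp toMv := by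
    refine B3_hom_ext ?_ ?_ ?_ ?_
    · intro a
      change bC z (algebraMap ℂ (B3 ℂ) a) = MvPolynomial.aeval ![gu, gs z, gw z] (toMv _)
      unfold bC toMv
      rw [evB_alg, evB_alg, MvPolynomial.aeval_C]
    · change bC z (bu ℂ) = MvPolynomial.aeval ![gu, gs z, gw z] (toMv _)
      unfold bC toMv
      rw [evB_u, evB_u, MvPolynomial.aeval_X]
      rfl
    · change bC z (bs ℂ) = MvPolynomial.aeval ![gu, gs z, gw z] (toMv _)
      unfold bC toMv
      rw [evB_s, evB_s, MvPolynomial.aeval_X]
      rfl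
    · change bC z (bw ℂ) = MvPolynomial.aeval ![gu, gs z, gw z] (toMv _)
      unfold bC toMv
      rw [evB_w, evB_w, MvPolynomial.aeval_X]
      rfl
  have h1 : Function.Injective (MvPolynomial.aeval ![gu, gs z, gw z] : PR →ₐ[ℂ] FR) :=
    algebraicIndependent_iff_injective_aeval.1 (indep_usw z hz)
  rw [h]
  exact h1.comp toMv_inj

variable (O : ValuationSubring ℂ)

/-- `O[u][s][w] → ℂ[u][s][w]` -/
noncomputable def incB : B3 O →+* B3 ℂ :=
  (mapRingHom (mapRingHom (mapRingHom O.subtype)) :
    Polynomial (Polynomial (Polynomial O)) →+* Polynomial (Polynomial (Polynomial ℂ)))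

theorem incB_inj : Function.Injective (incB O) :=
  map_injective _ (map_injective _ (map_injective _ O.subtype_injective))

theorem incB_u : incB O (bu O) = bu ℂ := by
  change (mapRingHom (mapRingHom (mapRingHom O.subtype)))
    (C (C X) : Polynomial (Polynomial (Polynomial O))) = C (C X)
  simp

theorem incB_s : incB O (bs O) = bs ℂ := by
  change (mapRingHom (mapRingHom (mapRingHom O.subtype)))
    (C X : Polynomial (Polynomial (Polynomial O))) = C X
  simp

theorem incB_w : incB O (bw O) = bw ℂ := by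
  change (mapRingHom (mapRingHom (mapRingHom O.subtype)))
    (X : Polynomial (Polynomial (Polynomial O))) = X
  simp

theorem incB_alg (a : O) : incB O (algebraMap O (B3 O) a) = algebraMap ℂ (B3 ℂ) a := by
  change (mapRingHom (mapRingHom (mapRingHom O.subtype)))
    (C (C (C a)) : Polynomial (Polynomial (Polynomial O))) = C (C (C (a : ℂ)))
  simp

/-- `O[u][s][w] → ℂ(u, T, p)` -/
noncomputable def bO : B3 O →+* FR := (bC z).comp (incB O)

include hz in
theorem bO_inj : Function.Injective (bO z O) := (bC_inj z hz).comp (incB_inj O)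

theorem bO_u : bO z O (bu O) = gu := by
  change bC z (incB O (bu O)) = gu
  rw [incB_u]; exact evB_u _ _ _ _

theorem bO_s : bO z O (bs O) = gs z := by
  change bC z (incB O (bs O)) = _
  rw [incB_s]; exact evB_s _ _ _ _

theorem bO_w : bO z O (bw O) = gw z := by
  change bC z (incB O (bw O)) = _
  rw [incB_w]; exact evB_w _ _ _ _

theorem bO_alg (a : O) : bO z O (algebraMap O (B3 O) a) = algebraMap ℂ FR a := by
  change bC z (incB O _) = _
  rw [incB_alg]; exact evB_alg _ _ _ _ _

end Inj

end Pool.Agent.Work.MP_c5a777_ag.Five
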