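import Pool.Agent.Work.MP_c5a777_ag.Five.Iota
import Pool.Agent.Work.MP_c5a777_ag.Bd.B01

/-!
The unramified class of order five.
-/

open Polynomial

namespace Pool.Agent.Work.MP_c5a777_ag.Five

section Five

variable {O : Type*} [CommRing O] (c d : O) (z : O) (hz : z ^ 5 = 1)

theorem sB_five (a : B3 O) (hz : z ^ 5 = 1) :
    sB O z (sB O z (sB O z (sB O z (sB O z a)))) = a := by
  have h : ((((sB O z : B3 O →+* B3 O).comp (sB O z : B3 O →+* B3 O)).comp
      (sB O z : B3 O →+* B3 O)).comp (sB O z : B3 O →+* B3 O)).comp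
      (sB O z : B3 O →+* B3 O) = RingHom.id (B3 O) := by
    refine B3_hom_ext ?_ ?_ ?_ ?_
    · intro a
      change sB O z (sB O z (sB O z (sB O z (sB O z (algebraMap O (B3 O) a))))) = _
      simp only [AlgHom.commutes]
      rfl
    · change sB O z (sB O z (sB O z (sB O z (sB O z (bu O))))) = bu O
      simp only [sB_u, map_mul, AlgHom.commutes]
      have : algebraMap O (B3 O) z * (algebraMap O (B3 O) z * (algebraMap O (B3 O) z *
          (algebraMap O (B3 O) z * (algebraMap O (B3 O) z * bu O)))) =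
          algebraMap O (B3 O) (z ^ 5) * bu O := by
        rw [map_pow]; ring
      rw [this, hz, map_one, one_mul]
    · change sB O z (sB O z (sB O z (sB O z (sB O z (bs O))))) = bs O
      simp only [sB_s]
    · change sB O z (sB O z (sB O z (sB O z (sB O z (bw O))))) = bw O
      simp only [sB_w]
  exact RingHom.congr_fun h a

theorem sT_five (x : TT O c d) :
    sT O c d z hz (sT O c d z hz (sT O c d z hz (sT O c d z hz (sT O c d z hz x)))) = x := by
  induction x using AdjoinRoot.induction_on with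
  | ih p =>
    induction p using Polynomial.induction_on' with
    | add p q hp hq => simp only [map_add, hp, hq]
    | monomial n a =>
      rw [← C_mul_X_pow_eq_monomial]
      simp only [map_mul, map_pow, AdjoinRoot.mk_C, AdjoinRoot.mk_X, sT_of, sT_root,
        sB_five z a hz]

/-- the automorphism of the model as a ring isomorphism -/
noncomputable def sTe : TT O c d ≃+* TT O c d :=
  RingEquiv.ofBijective (sT O c d z hz : TT O c d →+* TT O c d)
    ⟨fun x y h => by
      have h1 : sT O c d z hz x = sT O c d z hz y := h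
      rw [← sT_five c d z hz x, h1, sT_five c d z hz y],
     fun x => ⟨sT O c d z hz (sT O c d z hz (sT O c d z hz (sT O c d z hz x))),
      sT_five c d z hz x⟩⟩

theorem sTe_apply (x : TT O c d) : sTe c d z hz x = sT O c d z hz x := rfl

end Five

section

variable (z : ℂ) (hz : z ^ 4 + z ^ 3 + z ^ 2 + z + 1 = 0)
variable (O : ValuationSubring ℂ) (h2 : O.valuation (2 : ℂ) < 1)

/-- the algebra structure of the big field over the model -/
@[reducible] noncomputable def algTM : Algebra (TM z hz O h2) FR := (iota z hz O h2).toAlgebra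

theorem frac_TM : letI := algTM z hz O h2; IsFractionRing (TM z hz O h2) FR := by
  letI := algTM z hz O h2
  have := TM_isDomain z hz O h2
  have : FaithfulSMul (TM z hz O h2) FR :=
    (faithfulSMul_iff_algebraMap_injective _ _).2 (iota_inj z hz O h2)
  refine IsFractionRing.of_field (TM z hz O h2) FR fun f => ?_
  obtain ⟨x, y, h1, h3⟩ := iota_frac z hz O h2 f
  exact ⟨x, y, (eq_div_iff h1).2 h3⟩

/-- the automorphism `u ↦ z u` of the big field -/
noncomputable def sF : FR ≃+* FR :=
  letI := algTM z hz O h2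
  haveI := frac_TM z hz O h2
  haveI := TM_isDomain z hz O h2
  IsFractionRing.ringEquivOfRingEquiv (A := TM z hz O h2) (B := TM z hz O h2) (K := FR) (L := FR)
    (sTe (oc z hz O h2) (od z hz O h2) (oz z hz O) (oz_five z hz O))

theorem sF_iota (x : TM z hz O h2) : sF z hz O h2 (iota z hz O h2 x) =
    iota z hz O h2 (sT O (oc z hz O h2) (od z hz O h2) (oz z hz O) (oz_five z hz O) x) := by
  letI := algTM z hz O h2
  haveI := frac_TM z hz O h2
  haveI := TM_isDomain z hz O h2
  exact IsFractionRing.ringEquivOfRingEquiv_algebraMap (A := TM z hz O h2)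
    (B := TM z hz O h2) (K := FR) (L := FR)
    (sTe (oc z hz O h2) (od z hz O h2) (oz z hz O) (oz_five z hz O)) x

theorem sF_const (a : ℂ) : sF z hz O h2 (algebraMap ℂ FR a) = algebraMap ℂ FR a := by
  have hO : ∀ b : O, sF z hz O h2 (algebraMap ℂ FR b) = algebraMap ℂ FR b := by
    intro b
    rw [← bO_alg z O, ← iota_of z hz O h2, sF_iota, sT_of, (sB O _).commutes]
  rcases O.mem_or_inv_mem a with h | h
  · exact hO ⟨a, h⟩
  · have h3 := hO ⟨a⁻¹, h⟩
    have e : algebraMap ℂ FR ((⟨a⁻¹, h⟩ : O) : ℂ) = (algebraMap ℂ FR a)⁻¹ := map_inv₀ _ _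
    rw [e, map_inv₀] at h3
    exact inv_injective h3

theorem sF_u : sF z hz O h2 gu = gz z * gu := by
  rw [← bO_u z O, ← iota_of z hz O h2, sF_iota, sT_of, sB_u, iota_of, map_mul, bO_alg,
    iota_of]
  rfl

theorem sF_s : sF z hz O h2 (gs z) = gs z := by
  rw [← bO_s z O, ← iota_of z hz O h2, sF_iota, sT_of, sB_s]

theorem sF_w : sF z hz O h2 (gw z) = gw z := by
  rw [← bO_w z O, ← iota_of z hz O h2, sF_iota, sT_of, sB_w]

theorem sF_root : sF z hz O h2 ((1 - gs z) * gl z) = (1 - gs z) * gl z := by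
  rw [← iota_root z hz O h2, sF_iota, sT_root]

theorem sF_x : sF z hz O h2 (gx z) = gx z := by
  have h1 := one_sub_s_ne z hz
  have h3 := congrArg (sF z hz O h2) (x_eq z hz)
  simp only [map_mul, map_pow, map_sub, map_one, sF_s, sF_w] at h3
  rw [← x_eq z hz] at h3
  exact mul_left_cancel₀ (pow_ne_zero 2 h1) h3

theorem sF_y : sF z hz O h2 (gy z) = gy z := by
  have h1 := one_sub_s_ne z hz
  have h3 := congrArg (sF z hz O h2) (y_eq z hz)
  simp only [map_mul, map_pow, map_sub, map_one, sF_s, sF_w] at h3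
  rw [← y_eq z hz] at h3
  exact mul_left_cancel₀ (pow_ne_zero 3 h1) h3

theorem sF_l : sF z hz O h2 (gl z) = gl z := by
  have h1 := one_sub_s_ne z hz
  have h3 := sF_root z hz O h2
  rw [map_mul, map_sub, map_one, sF_s] at h3
  exact mul_left_cancel₀ h1 h3

theorem gz_five (hz : z ^ 4 + z ^ 3 + z ^ 2 + z + 1 = 0) : gz z ^ 5 = 1 := by
  unfold gz
  rw [← map_pow, z_five z hz, map_one]

theorem sF_t : sF z hz O h2 gt = gt := by
  unfold gt
  rw [map_pow, sF_u, mul_pow, gz_five z hz, one_mul]

theorem sF_five (f : FR) : sF z hz O h2 (sF z hz O h2 (sF z hz O h2 (sF z hz O h2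
    (sF z hz O h2 f)))) = f := by
  obtain ⟨x, y, h1, h3⟩ := iota_frac z hz O h2 f
  have hf : f = iota z hz O h2 x / iota z hz O h2 y := (eq_div_iff h1).2 h3
  rw [hf]
  simp only [map_div₀, sF_iota, sT_five]

/-- the function field of the threefold -/
noncomputable def LF : IntermediateField ℂ FR :=
  IntermediateField.adjoin ℂ {gt, gx z, gy z, gl z}

theorem gt_mem : gt ∈ LF z := IntermediateField.subset_adjoin _ _ (by simp)
theorem gx_mem : gx z ∈ LF z := IntermediateField.subset_adjoin _ _ (by simp)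
theorem gy_mem : gy z ∈ LF z := IntermediateField.subset_adjoin _ _ (by simp)
theorem gl_mem : gl z ∈ LF z := IntermediateField.subset_adjoin _ _ (by simp)

theorem sF_fix (f : FR) (hf : f ∈ LF z) : sF z hz O h2 f = f := by
  induction hf using IntermediateField.adjoin_induction with
  | mem x hx =>
    simp only [Set.mem_insert_iff, Set.mem_singleton_iff] at hx
    rcases hx with rfl | rfl | rfl | rfl
    · exact sF_t z hz O h2
    · exact sF_x z hz O h2
    · exact sF_y z hz O h2
    · exact sF_l z hz O h2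
  | algebraMap a => exact sF_const z hz O h2 a
  | add x y _ _ hx hy => rw [map_add, hx, hy]
  | inv x _ hx => rw [map_inv₀, hx]
  | mul x y _ _ hx hy => rw [map_mul, hx, hy]

/-- the automorphism over the function field -/
noncomputable def sFL : FR ≃ₐ[LF z] FR :=
  { sF z hz O h2 with
    commutes' := fun f => sF_fix z hz O h2 _ f.2 }

theorem sFL_apply (f : FR) : sFL z hz O h2 f = sF z hz O h2 f := rfl

/-- the base parameter in `L` -/
noncomputable def lt : LF z := ⟨gt, gt_mem z⟩
/-- coordinate in `L` -/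
noncomputable def lx : LF z := ⟨gx z, gx_mem z⟩
/-- coordinate in `L` -/
noncomputable def ly : LF z := ⟨gy z, gy_mem z⟩
/-- coordinate in `L` -/
noncomputable def ll : LF z := ⟨gl z, gl_mem z⟩

/-- the second entry of the symbol -/
noncomputable def lf : LF z :=
  hk (algebraMap ℂ (LF z) (5 * (z + z ^ 4) - 3)) (lx z) (ly z)

theorem map_hk {R S : Type*} [CommRing R] [CommRing S] (f : R →+* S) (k x y : R) :
    f (hk k x y) = hk (f k) (f x) (f y) := by
  simp only [hk, gq, map_add, map_sub, map_mul, map_pow]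

theorem hk_coe (k : ℂ) : ((hk (algebraMap ℂ (LF z) k) (lx z) (ly z) : LF z) : FR) =
    hk (algebraMap ℂ FR k) (gx z) (gy z) := map_hk (algebraMap (LF z) FR) _ _ _

theorem lf_coe : ((lf z : LF z) : FR) = hk (5 * ge z - 3) (gx z) (gy z) := by
  unfold lf
  rw [hk_coe, ← gc_eq]

theorem trdeg_LF (hz : z ^ 4 + z ^ 3 + z ^ 2 + z + 1 = 0) : Algebra.trdeg ℂ (LF z) = 3 := by
  have h1 : Algebra.IsAlgebraic (LF z) FR := by
    refine alg_of_top _ fun M hc hs h5 f => ?_
    have hu : gu ∈ M := h5 _ (hs gt (by simp))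
    exact top_uxy z hz M hc hu (hs _ (by simp)) (hs _ (by simp)) h5 f
  have h := _root_.trdeg_add_eq ℂ (LF z) (A := FR)
  rw [trdeg_eq_zero (R := LF z), add_zero, trdeg_FR] at h
  exact h

theorem LF_fg : ∃ s : Finset (LF z), IntermediateField.adjoin ℂ (s : Set (LF z)) = ⊤ := by
  classical
  refine ⟨{lt z, lx z, ly z, ll z}, ?_⟩
  rw [eq_top_iff]
  intro f _
  have hinj : Function.Injective ((LF z).val) := Subtype.val_injective
  have h1 : (IntermediateField.adjoin ℂ
      ((({lt z, lx z, ly z, ll z} : Finset (LF z)) : Set (LF z)))).map (LF z).val = LF z := by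
    rw [IntermediateField.adjoin_map]
    have : (LF z).val '' ((({lt z, lx z, ly z, ll z} : Finset (LF z)) : Set (LF z))) =
        {gt, gx z, gy z, gl z} := by
      simp only [Finset.coe_insert, Finset.coe_singleton, Set.image_insert_eq,
        Set.image_singleton]
      rfl
    rw [this]
    rfl
  have h2 : (LF z).val f ∈ (IntermediateField.adjoin ℂ
      ((({lt z, lx z, ly z, ll z} : Finset (LF z)) : Set (LF z)))).map (LF z).val := by
    rw [h1]; exact f.2
  obtain ⟨y, hy, hyz⟩ := h2
  have : y = f := hinj hyz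
  rw [← this]
  exact hy

section Nonvanish

include hz

/-- a polynomial relation between `u, x, y` is trivial -/
theorem rel_xy (P : PR) (a : Fin 3 → ℂ) (ha : MvPolynomial.eval a P ≠ 0) :
    MvPolynomial.aeval ![gu, gx z, gy z] P ≠ 0 := by
  intro h
  have h1 := indep_uxy z hz
  rw [algebraicIndependent_iff] at h1
  rw [h1 P h, map_zero] at ha
  exact ha rfl

theorem hk_ne (k : ℂ) : hk (algebraMap ℂ FR k) (gx z) (gy z) ≠ 0 := by
  have e : MvPolynomial.aeval ![gu, gx z, gy z]
        (hk (MvPolynomial.C k) (MvPolynomial.X 1) (MvPolynomial.X 2)) =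
        hk (algebraMap ℂ FR k) (gx z) (gy z) := by
    have := map_hk (MvPolynomial.aeval ![gu, gx z, gy z] : PR →ₐ[ℂ] FR).toRingHom
      (MvPolynomial.C k) (MvPolynomial.X 1) (MvPolynomial.X 2)
    refine this.trans ?_
    change hk (MvPolynomial.aeval ![gu, gx z, gy z] (MvPolynomial.C k))
      (MvPolynomial.aeval ![gu, gx z, gy z] (MvPolynomial.X 1))
      (MvPolynomial.aeval ![gu, gx z, gy z] (MvPolynomial.X 2)) = _
    rw [MvPolynomial.aeval_C, MvPolynomial.aeval_X, MvPolynomial.aeval_X]
    rfl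
  have h1 : MvPolynomial.eval ![0, 0, 1]
      (hk (MvPolynomial.C k) (MvPolynomial.X 1) (MvPolynomial.X 2) : PR) = 1 + k := by
    simp [hk, gq]
  have h2 : MvPolynomial.eval ![0, 0, 2]
      (hk (MvPolynomial.C k) (MvPolynomial.X 1) (MvPolynomial.X 2) : PR) = 4 + k * 2 := by
    simp [hk, gq]; norm_num
  by_cases hk1 : 1 + k = 0
  · have h := rel_xy z hz (hk (MvPolynomial.C k) (MvPolynomial.X 1) (MvPolynomial.X 2))
      ![0, 0, 2] (by
        rw [h2]
        intro h
        have : (2 : ℂ) = 0 := by linear_combination h - 2 * hk1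
        norm_num at this)
    rwa [e] at h
  · have h := rel_xy z hz (hk (MvPolynomial.C k) (MvPolynomial.X 1) (MvPolynomial.X 2))
      ![0, 0, 1] (by rw [h1]; exact hk1)
    rwa [e] at h

theorem gq_ne : gq (gx z) (gy z) ≠ 0 := by
  have h := rel_xy z hz (MvPolynomial.X 1 * MvPolynomial.X 2 + MvPolynomial.X 2 -
    MvPolynomial.X 1 ^ 2) ![0, 0, 1] (by simp)
  intro h0
  apply h
  simp only [map_sub, map_add, map_mul, map_pow, MvPolynomial.aeval_X]
  exact h0

theorem one_add_x_ne : 1 + gx z ≠ 0 := by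
  have h := rel_xy z hz (1 + MvPolynomial.X 1) ![0, 0, 0] (by simp)
  intro h0
  apply h
  simp only [map_add, map_one, MvPolynomial.aeval_X]
  exact h0

theorem gl_ne : gl z ≠ 0 := by
  intro h0
  have hr := rel_l z hz
  rw [h0, zero_pow (by norm_num), mul_zero] at hr
  have h := rel_xy z hz (MvPolynomial.C (5 * (z + z ^ 4) - 3) * MvPolynomial.X 0 ^ 5 *
      hk (MvPolynomial.C (-8 - 5 * (z + z ^ 4))) (MvPolynomial.X 1) (MvPolynomial.X 2) -
      MvPolynomial.C (-8 - 5 * (z + z ^ 4)) * Vt (MvPolynomial.X 0 ^ 5) *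
      hk (MvPolynomial.C (5 * (z + z ^ 4) - 3)) (MvPolynomial.X 1) (MvPolynomial.X 2))
    ![0, -1, 0] ?_
  · apply h
    have e : ∀ k : ℂ, MvPolynomial.aeval ![gu, gx z, gy z]
        (hk (MvPolynomial.C k) (MvPolynomial.X 1) (MvPolynomial.X 2)) =
        hk (algebraMap ℂ FR k) (gx z) (gy z) := by
      intro k
      have := map_hk (MvPolynomial.aeval ![gu, gx z, gy z] : PR →ₐ[ℂ] FR).toRingHom
        (MvPolynomial.C k) (MvPolynomial.X 1) (MvPolynomial.X 2)
      refine this.trans ?_
      change hk (MvPolynomial.aeval ![gu, gx z, gy z] (MvPolynomial.C k))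
        (MvPolynomial.aeval ![gu, gx z, gy z] (MvPolynomial.X 1))
        (MvPolynomial.aeval ![gu, gx z, gy z] (MvPolynomial.X 2)) = _
      rw [MvPolynomial.aeval_C, MvPolynomial.aeval_X, MvPolynomial.aeval_X]
      rfl
    rw [map_sub, map_mul, map_mul, map_mul, map_mul, e, e, MvPolynomial.aeval_C,
      MvPolynomial.aeval_C, map_pow, MvPolynomial.aeval_X, ← gc_eq, ← gc'_eq]
    have hV : MvPolynomial.aeval ![gu, gx z, gy z] (Vt (MvPolynomial.X 0 ^ 5) : PR) =
        Vt gt := by
      simp only [Vt, map_mul, map_sub, map_pow, map_one, map_ofNat, MvPolynomial.aeval_X]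
      rfl
    rw [hV]
    exact hr.symm
  · have h1 : MvPolynomial.eval ![0, -1, 0] (MvPolynomial.C (5 * (z + z ^ 4) - 3) *
      MvPolynomial.X 0 ^ 5 *
      hk (MvPolynomial.C (-8 - 5 * (z + z ^ 4))) (MvPolynomial.X 1) (MvPolynomial.X 2) -
      MvPolynomial.C (-8 - 5 * (z + z ^ 4)) * Vt (MvPolynomial.X 0 ^ 5) *
      hk (MvPolynomial.C (5 * (z + z ^ 4) - 3)) (MvPolynomial.X 1) (MvPolynomial.X 2) : PR) =
      2 * (-8 - 5 * (z + z ^ 4)) * (1 - (5 * (z + z ^ 4) - 3)) := by
      simp only [hk, gq, Vt, map_sub, map_add, map_mul, map_pow, map_one, map_ofNat,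
        MvPolynomial.eval_C, MvPolynomial.eval_X]
      simp
      ring
    rw [h1]
    refine mul_ne_zero (mul_ne_zero two_ne_zero (c'_ne z hz)) ?_
    intro h
    have h3 := e_rel z hz
    have h4 : (z + z ^ 4) = 4 / 5 := by linear_combination (-1 / 5) * h
    rw [h4] at h3
    norm_num at h3

end Nonvanish

end

end Pool.Agent.Work.MP_c5a777_ag.Five
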