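import Pool.Agent.Work.MP_c5a777_ag.Five.Fin

/-!
The class of order five is unramified and the algebra is not split.
-/

open Polynomial

namespace Pool.Agent.Work.MP_c5a777_ag.Five

section

variable (z : ℂ) (hz : z ^ 4 + z ^ 3 + z ^ 2 + z + 1 = 0)

theorem lt_ne : lt z ≠ 0 := by
  intro h
  exact gt_ne (congrArg Subtype.val h)

include hz

theorem lf_ne : lf z ≠ 0 := by
  intro h
  have h1 := congrArg (algebraMap (LF z) FR) h
  rw [map_zero] at h1
  exact hk_ne z hz (5 * (z + z ^ 4) - 3) ((hk_coe z _).symm.trans h1)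

theorem lrel : algebraMap ℂ (LF z) (10 * (z + z ^ 4) + 5) * ll z ^ 5 =
    algebraMap ℂ (LF z) (5 * (z + z ^ 4) - 3) * lt z *
      hk (algebraMap ℂ (LF z) (-8 - 5 * (z + z ^ 4))) (lx z) (ly z) -
    algebraMap ℂ (LF z) (-8 - 5 * (z + z ^ 4)) * Vt (lt z) *
      hk (algebraMap ℂ (LF z) (5 * (z + z ^ 4) - 3)) (lx z) (ly z) := by
  apply (algebraMap (LF z) FR).injective
  have h := rel_l z hz
  rw [gc_eq, gc'_eq, gdelta_eq] at h
  have hV : algebraMap (LF z) FR (Vt (lt z)) = Vt gt := by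
    simp only [Vt, map_mul, map_sub, map_pow, map_one, map_ofNat]
    rfl
  rw [map_sub, map_mul, map_mul, map_mul, map_mul, map_mul, map_pow, map_hk, map_hk, hV]
  exact h

theorem unram (A : ValuationSubring (LF z)) (hC : ∀ a : ℂ, algebraMap ℂ (LF z) a ∈ A)
    [IsDiscreteValuationRing A] : TameFifth A (lt z) (lf z) := by
  refine tame_main A hC (z + z ^ 4) (e_rel z hz) (lt z) (lx z) (ly z) (ll z) (lt_ne z)
    ?_ ?_ (lf_ne z hz) ?_ ?_ ?_ (lrel z hz)
  · intro h
    have h1 := congrArg (algebraMap (LF z) FR) h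
    have hV : algebraMap (LF z) FR (Vt (lt z)) = Vt gt := by
      simp only [Vt, map_mul, map_sub, map_pow, map_one, map_ofNat]
      rfl
    rw [hV, map_zero] at h1
    exact ev_V.ne_zero (by norm_num) h1
  · intro h
    have h1 := congrArg (algebraMap (LF z) FR) h
    rw [map_zero] at h1
    refine gq_ne z hz (Eq.trans ?_ h1)
    simp only [gq, map_add, map_sub, map_mul, map_pow]
    rfl
  · intro h
    have h1 := congrArg (algebraMap (LF z) FR) h
    rw [map_zero] at h1
    exact hk_ne z hz (-8 - 5 * (z + z ^ 4)) ((hk_coe z _).symm.trans h1)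
  · intro h
    have h1 := congrArg (algebraMap (LF z) FR) h
    rw [map_zero] at h1
    refine one_add_x_ne z hz (Eq.trans ?_ h1)
    rw [map_add, map_one]
    rfl
  · intro h
    exact gl_ne z hz (congrArg Subtype.val h)

theorem nonsplit (hp : IsPrimitiveRoot z 5) : ¬ ∃ U V : Matrix (Fin 5) (Fin 5) (LF z),
    U ^ 5 = Matrix.scalar (Fin 5) (lt z) ∧ V ^ 5 = Matrix.scalar (Fin 5) (lf z) ∧
    V * U = algebraMap ℂ (LF z) z • (U * V) := by
  rintro ⟨U, V, hU, hV, hVU⟩
  obtain ⟨O, h2⟩ := exists_val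
  obtain ⟨γ, hγ⟩ := norm_of_matrix_five (L := LF z) (F := FR) (algebraMap ℂ (LF z) z)
    (hp.map_of_injective (algebraMap ℂ (LF z)).injective) (lt z) (lf z) (lt_ne z) (lf_ne z hz)
    gu rfl (sFL z hz O h2) (sF_u z hz O h2) (sF_five z hz O h2) U V hU hV hVU
  simp only [sFL_apply] at hγ
  have hf : algebraMap (LF z) FR (lf z) = hk (5 * ge z - 3) (gx z) (gy z) := lf_coe z
  have h1s := one_sub_s_ne z hz
  set s : FR →+* FR := (sF z hz O h2 : FR →+* FR) with hs
  have hs1 : s (1 - gs z) = 1 - gs z := by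
    rw [map_sub, map_one]
    congr 1
    exact sF_s z hz O h2
  set γ' : FR := γ * (1 - gs z) with hγ'
  have hN : γ' * s γ' * s (s γ') * s (s (s γ')) * s (s (s (s γ'))) =
      iota z hz O h2 (AdjoinRoot.of _ (HP O (oc z hz O h2))) := by
    have e1 : γ' * s γ' * s (s γ') * s (s (s γ')) * s (s (s (s γ'))) =
        (1 - gs z) ^ 5 * (γ * s γ * s (s γ) * s (s (s γ)) * s (s (s (s γ)))) := by
      simp only [hγ', map_mul, hs1]
      ring
    have e2 : γ * s γ * s (s γ) * s (s (s γ)) * s (s (s (s γ))) =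
        hk (5 * ge z - 3) (gx z) (gy z) := by
      rw [← hf]; exact hγ.symm
    rw [e1, e2, iota_of]
    have hm := map_pHp (S' := FR) (bO z O) (algebraMap O (B3 O) (oc z hz O h2)) (bs O) (bw O)
    rw [bO_alg, bO_s, bO_w, oc_F, pHp_F z hz] at hm
    exact hm.symm
  have hth := theta_HP (oc z hz O h2) (od z hz O h2) (two_max O h2) (oc_unit z hz O h2)
  have hγ0 : γ ≠ 0 := by
    intro h
    rw [h] at hγ
    simp only [zero_mul] at hγ
    exact (lf_ne z hz) ((algebraMap (LF z) FR).injective (by rw [hγ, map_zero]))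
  have hγ'0 : γ' ≠ 0 := mul_ne_zero hγ0 h1s
  obtain ⟨x, y, hy, hxy⟩ := iota_frac z hz O h2 γ'
  have hy0 : y ≠ 0 := by
    rintro rfl
    exact hy (map_zero _)
  have hx0 : x ≠ 0 := by
    rintro rfl
    rw [map_zero] at hxy
    exact (mul_ne_zero hγ'0 hy) hxy
  have hres : IsLocalRing.residue O (oz z hz O) ≠ 0 := by
    intro h
    have h5 := congrArg (IsLocalRing.residue O) (oz_five z hz O)
    rw [map_pow, h, map_one, zero_pow (by norm_num)] at h5
    exact zero_ne_one h5
  refine no_norm (O := O) (T := TM z hz O h2) (Ω := (IsLocalRing.ResidueField O)[X][X][X])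
    (F := FR) (theta (oc z hz O h2) (od z hz O h2) (two_max O h2))
    (theta_ker (oc z hz O h2) (od z hz O h2) (two_max O h2))
    (sT O (oc z hz O h2) (od z hz O h2) (oz z hz O) (oz_five z hz O))
    (tau _ (IsLocalRing.residue O (oz z hz O))) ?_
    (tau_inj _ _ hres) (rootMultiplicity 1)
    (fun a b ha hb => rootMultiplicity_mul (mul_ne_zero ha hb)) (tau_ord _ _ hres)
    (iota z hz O h2) (iota_inj z hz O h2) s ?_ _ hth.2 ?_ x y hx0 hy0 γ' ?_ hN
  · exact theta_equiv (oc z hz O h2) (od z hz O h2) (two_max O h2) (oz z hz O) (oz_five z hz O)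
  · intro w
    exact (sF_iota z hz O h2 w).symm
  · rw [hth.1]; norm_num
  · rw [eq_div_iff hy, hxy]

end

end Pool.Agent.Work.MP_c5a777_ag.Five
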