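import Pool.Agent.Work.MP_c5a777_ag.Five.Embed

/-!
The embedding of the integral model in the big field, its automorphism.
-/

open Polynomial

namespace Pool.Agent.Work.MP_c5a777_ag.Five

section

variable (z : ℂ) (hz : z ^ 4 + z ^ 3 + z ^ 2 + z + 1 = 0)
variable (O : ValuationSubring ℂ) (h2 : O.valuation (2 : ℂ) < 1)

theorem two_mem : (2 : ℂ) ∈ O := by
  have := O.one_mem
  have h : (2 : ℂ) = 1 + 1 := by norm_num
  rw [h]; exact add_mem this this

include h2 in
theorem two_max : (2 : O) ∈ IsLocalRing.maximalIdeal O :=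
  (O.valuation_lt_one_iff (2 : O)).2 h2

include hz in
theorem z_five : z ^ 5 = 1 := by linear_combination (z - 1) * hz

include hz h2 in
theorem vals : O.valuation (5 * (z + z ^ 4) - 3) = 1 ∧
    O.valuation (-8 - 5 * (z + z ^ 4)) = 1 ∧ O.valuation (10 * (z + z ^ 4) + 5) = 1 := by
  obtain ⟨-, -, h3, h4, h5⟩ := val_facts O h2 (z + z ^ 4) (e_rel z hz)
  exact ⟨h4, h5, h3⟩

/-- `c` as an element of `O` -/
def oc : O := ⟨5 * (z + z ^ 4) - 3, O.mem_of_valuation_le_one _ (vals z hz O h2).1.le⟩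

/-- `c' / δ` as an element of `O` -/
noncomputable def od : O := ⟨(-8 - 5 * (z + z ^ 4)) / (10 * (z + z ^ 4) + 5),
  O.mem_of_valuation_le_one _ (by
    rw [map_div₀, (vals z hz O h2).2.1, (vals z hz O h2).2.2, div_one])⟩

/-- `z` as an element of `O` -/
def oz : O := ⟨z, O.mem_of_valuation_le_one _ (val_root O z (z_five z hz)).le⟩

theorem oz_five : oz z hz O ^ 5 = 1 := by
  apply Subtype.ext
  exact z_five z hz

theorem oc_unit : IsUnit (oc z hz O h2) :=
  (O.valuation_eq_one_iff (oc z hz O h2)).2 (vals z hz O h2).1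

/-- the model -/
abbrev TM : Type := TT O (oc z hz O h2) (od z hz O h2)

include hz in
theorem pHp_F (k : FR) : pHp k (gs z) (gw z) = (1 - gs z) ^ 5 * hk k (gx z) (gy z) := by
  have h1 := one_sub_s_ne z hz
  have h := pHp_eq k (gs z) (gw z) (gx z) (gy z) (x_eq z hz) (y_eq z hz)
  apply mul_left_cancel₀ h1
  rw [h]; ring

theorem od_F : algebraMap ℂ FR (od z hz O h2 : ℂ) = (-8 - 5 * ge z) / (10 * ge z + 5) := by
  change algebraMap ℂ FR ((-8 - 5 * (z + z ^ 4)) / (10 * (z + z ^ 4) + 5)) = _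
  rw [map_div₀, ← gc'_eq, ← gdelta_eq]

theorem oc_F : algebraMap ℂ FR (oc z hz O h2 : ℂ) = 5 * ge z - 3 := (gc_eq z).symm

theorem bO_HH : bO z O (HH O (oc z hz O h2) (od z hz O h2)) = ((1 - gs z) * gl z) ^ 5 := by
  have hm := map_pH (S' := FR) (bO z O) (algebraMap O (B3 O) (oc z hz O h2))
    (algebraMap O (B3 O) (od z hz O h2)) (bu O) (bs O) (bw O)
  rw [bO_alg, bO_alg, bO_u, bO_s, bO_w, oc_F, od_F] at hm
  refine hm.trans ?_
  have hδ : 10 * ge z + 5 ≠ 0 := by
    rw [gdelta_eq]; exact alg_ne' (delta_ne z hz)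
  have h0 := pHp_F z hz 0
  have hc := pHp_F z hz (5 * ge z - 3)
  have h0' : gs z ^ 2 * gw z ^ 5 * (1 + gw z) = (1 - gs z) ^ 5 * hk 0 (gx z) (gy z) := by
    rw [← h0]; unfold pHp; ring
  have hr := rel_l z hz
  have hl : gl z ^ 5 = ((5 * ge z - 3) * gt * hk (-8 - 5 * ge z) (gx z) (gy z) -
      (-8 - 5 * ge z) * Vt gt * hk (5 * ge z - 3) (gx z) (gy z)) / (10 * ge z + 5) := by
    rw [eq_div_iff hδ, ← hr, mul_comm]
  have hu : gu ^ 5 = gt := rfl
  have key : (10 * ge z + 5) * gt * hk 0 (gx z) (gy z) -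
      (-8 - 5 * ge z) * (Vt gt - gt) * hk (5 * ge z - 3) (gx z) (gy z) =
      (5 * ge z - 3) * gt * hk (-8 - 5 * ge z) (gx z) (gy z) -
      (-8 - 5 * ge z) * Vt gt * hk (5 * ge z - 3) (gx z) (gy z) := by
    unfold hk; ring
  rw [← key] at hl
  unfold pH
  rw [hc, h0', mul_pow, hl, hu]
  generalize hk (5 * ge z - 3) (gx z) (gy z) = A
  generalize hk 0 (gx z) (gy z) = B
  generalize 10 * ge z + 5 = D at *
  generalize -8 - 5 * ge z = E
  generalize 1 - gs z = S
  generalize Vt gt = V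
  field_simp

theorem iota_aux : (gT O (oc z hz O h2) (od z hz O h2)).eval₂ (bO z O)
    ((1 - gs z) * gl z) = 0 := by
  rw [eval_gT, bO_HH, sub_self]

/-- the embedding of the model -/
noncomputable def iota : TM z hz O h2 →+* FR :=
  AdjoinRoot.lift (bO z O) ((1 - gs z) * gl z) (iota_aux z hz O h2)

theorem iota_of (a : B3 O) : iota z hz O h2 (AdjoinRoot.of _ a) = bO z O a := by
  unfold iota
  rw [AdjoinRoot.lift_of]

theorem iota_root : iota z hz O h2 (AdjoinRoot.root _) = (1 - gs z) * gl z := by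
  unfold iota
  rw [AdjoinRoot.lift_root]

theorem TM_isDomain : IsDomain (TM z hz O h2) :=
  isDomain_of_theta (O := O) (T := TM z hz O h2)
    (Ω := (IsLocalRing.ResidueField O)[X][X][X])
    (theta (oc z hz O h2) (od z hz O h2) (two_max O h2))
    (theta_ker (oc z hz O h2) (od z hz O h2) (two_max O h2))

theorem iota_inj : Function.Injective (iota z hz O h2) := by
  have := TM_isDomain z hz O h2
  have hfin : Module.Finite (B3 O) (TM z hz O h2) :=
    (gT_monic O (oc z hz O h2) (od z hz O h2)).finite_adjoinRoot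
  have : Algebra.IsIntegral (B3 O) (TM z hz O h2) := Algebra.IsIntegral.of_finite _ _
  rw [RingHom.injective_iff_ker_eq_bot]
  apply Ideal.eq_bot_of_comap_eq_bot (R := B3 O)
  rw [eq_bot_iff]
  intro a ha
  rw [Ideal.mem_comap, RingHom.mem_ker] at ha
  have h1 : bO z O a = 0 := by
    rw [← iota_of z hz O h2]; exact ha
  rw [Ideal.mem_bot]
  exact (map_eq_zero_iff _ (bO_inj z hz O)).1 h1

theorem bu_ne (O : Type*) [CommRing O] [Nontrivial O] : bu O ≠ 0 := by
  intro h
  have h1 : (C (C X) : Polynomial (Polynomial (Polynomial O))) = 0 := h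
  rw [C_eq_zero, C_eq_zero] at h1
  exact X_ne_zero h1

/-- every element of the big field is a fraction of elements of the model -/
theorem iota_frac (f : FR) : ∃ x y : TM z hz O h2, iota z hz O h2 y ≠ 0 ∧
    f * iota z hz O h2 y = iota z hz O h2 x := by
  let M : Subfield FR :=
    { carrier := {f | ∃ x y : TM z hz O h2, iota z hz O h2 y ≠ 0 ∧
        f * iota z hz O h2 y = iota z hz O h2 x}
      mul_mem' := by
        rintro f g ⟨x, y, h1, h2'⟩ ⟨x', y', h1', h2''⟩
        refine ⟨x * x', y * y', ?_, ?_⟩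
        · rw [map_mul]; exact mul_ne_zero h1 h1'
        · rw [map_mul, map_mul, ← h2', ← h2'']; ring
      one_mem' := ⟨1, 1, by rw [map_one]; exact one_ne_zero, by rw [map_one, mul_one]⟩
      add_mem' := by
        rintro f g ⟨x, y, h1, h2'⟩ ⟨x', y', h1', h2''⟩
        refine ⟨x * y' + x' * y, y * y', ?_, ?_⟩
        · rw [map_mul]; exact mul_ne_zero h1 h1'
        · rw [map_mul, map_add, map_mul, map_mul, ← h2', ← h2'']; ring
      zero_mem' := ⟨0, 1, by rw [map_one]; exact one_ne_zero, by rw [map_zero, zero_mul]⟩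
      neg_mem' := by
        rintro f ⟨x, y, h1, h2'⟩
        exact ⟨-x, y, h1, by rw [map_neg, ← h2', neg_mul]⟩
      inv_mem' := by
        rintro f ⟨x, y, h1, h2'⟩
        by_cases hf : f = 0
        · subst hf
          exact ⟨0, 1, by rw [map_one]; exact one_ne_zero, by rw [map_zero, inv_zero, zero_mul]⟩
        · refine ⟨y, x, ?_, ?_⟩
          · rw [← h2']; exact mul_ne_zero hf h1
          · rw [← h2', ← mul_assoc, inv_mul_cancel₀ hf, one_mul] }
  have hof : ∀ a : B3 O, bO z O a ∈ M := fun a =>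
    ⟨AdjoinRoot.of _ a, 1, by rw [map_one]; exact one_ne_zero, by rw [map_one, mul_one, iota_of]⟩
  have hO : ∀ a : O, algebraMap ℂ FR a ∈ M := fun a => by
    rw [← bO_alg z O]; exact hof _
  have hc : ∀ a : ℂ, algebraMap ℂ FR a ∈ M := by
    intro a
    rcases O.mem_or_inv_mem a with h | h
    · exact hO ⟨a, h⟩
    · have h3 := hO ⟨a⁻¹, h⟩
      have h4 := M.inv_mem h3
      have e : (algebraMap ℂ FR ((⟨a⁻¹, h⟩ : O) : ℂ))⁻¹ = algebraMap ℂ FR a := by
        rw [← map_inv₀]
        change algebraMap ℂ FR (a⁻¹)⁻¹ = _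
        rw [inv_inv]
      rwa [e] at h4
  have hu : gu ∈ M := by rw [← bO_u z O]; exact hof _
  have hs : gs z ∈ M := by rw [← bO_s z O]; exact hof _
  have hw : gw z ∈ M := by rw [← bO_w z O]; exact hof _
  have hxy := xy_mem z hz M hs hw
  have hr : (1 - gs z) * gl z ∈ M :=
    ⟨AdjoinRoot.root _, 1, by rw [map_one]; exact one_ne_zero, by
      rw [map_one, mul_one, iota_root]⟩
  have h1s := one_sub_s_ne z hz
  have hl : gl z ∈ M := by
    have : gl z = (1 - gs z) * gl z / (1 - gs z) := by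
      rw [mul_div_cancel_left₀ _ h1s]
    rw [this]
    exact M.div_mem hr (M.sub_mem M.one_mem hs)
  have he0 : ge z ≠ 0 := by
    intro h
    have := erelF z hz
    rw [h] at this
    norm_num at this
  have hm : gm z ∈ M := by
    have : gm z = -(gl z / (ge z * gu)) := by
      have h3 : gl z / (ge z * gu) = -gm z := by
        rw [div_eq_iff (mul_ne_zero he0 gu_ne)]
        unfold gl
        ring
      rw [h3, neg_neg]
    rw [this]
    have he : ge z ∈ M := by rw [ge_eq]; exact hc _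
    exact M.neg_mem (M.div_mem hl (M.mul_mem he hu))
  exact top_of_mem z hz M hc hu hxy.1 hxy.2 hm f

end

end Pool.Agent.Work.MP_c5a777_ag.Five
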