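import Pool.Agent.Work.MP_c5a777_ag.Five.Curve

/-!
An integral model of the function field over a valuation ring, and its reduction.

The base ring is `O[u][s][w]` (innermost variable `u`, outermost variable `w`), the model is
`O[u][s][w][Λ] / (Λ⁵ - H)`, and the target of the reduction map is `k[u][r][v]`.
-/

open Polynomial

namespace Pool.Agent.Work.MP_c5a777_ag.Five

section

variable {R : Type*} [CommRing R]

/-- the polynomial `(1 - s)⁵ h_c` in terms of `s, w` -/
def pHp (c s w : R) : R :=
  s ^ 2 * w ^ 5 * (1 + w) + c * (s * w ^ 3 * ((1 - s) ^ 2 - s * (1 - s) * w + s * w ^ 2))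

/-- the polynomial `(1 - s)⁵ λ⁵` in terms of `u, s, w` -/
def pH (c d u s w : R) : R :=
  u ^ 5 * (s ^ 2 * w ^ 5 * (1 + w)) - d * (Vt (u ^ 5) - u ^ 5) * pHp c s w

theorem pHp_eq (c s w : R) (x y : R) (hx : (1 - s) ^ 2 * x = s * w ^ 2)
    (hy : (1 - s) ^ 3 * y = s * w ^ 3) :
    (1 - s) * pHp c s w = (1 - s) ^ 6 * hk c x y := by
  have e1 : (1 - s) ^ 6 * hk c x y = ((1 - s) ^ 3 * y) ^ 2 +
      (1 - s) * ((1 - s) ^ 2 * x) * ((1 - s) ^ 3 * y) - ((1 - s) ^ 2 * x) ^ 3 +
      c * ((1 - s) * ((1 - s) ^ 2 * x) * ((1 - s) ^ 3 * y) + (1 - s) ^ 3 * ((1 - s) ^ 3 * y) -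
        (1 - s) ^ 2 * ((1 - s) ^ 2 * x) ^ 2) := by
    unfold hk gq; ring
  rw [e1, hx, hy]
  unfold pHp
  ring

end

section Model

/-- the base ring `O[u][s][w]` -/
def B3 (O : Type*) [CommRing O] : Type _ := Polynomial (Polynomial (Polynomial O))

noncomputable instance (O : Type*) [CommRing O] : CommRing (B3 O) :=
  inferInstanceAs (CommRing (Polynomial (Polynomial (Polynomial O))))

instance (O : Type*) [CommRing O] [IsDomain O] : IsDomain (B3 O) :=
  inferInstanceAs (IsDomain (Polynomial (Polynomial (Polynomial O))))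

noncomputable instance (O : Type*) [CommRing O] : Algebra O (B3 O) :=
  inferInstanceAs (Algebra O (Polynomial (Polynomial (Polynomial O))))

theorem free_two (O : Type*) [CommRing O] : Module.Free O (O[X][X]) :=
  Module.Free.trans (R := O) (S := O[X]) (M := O[X][X])

theorem free_three (O : Type*) [CommRing O] : Module.Free O (O[X][X][X]) :=
  haveI := free_two O
  Module.Free.trans (R := O) (S := O[X][X]) (M := O[X][X][X])

instance (O : Type*) [CommRing O] : Module.Free O (B3 O) := free_three O

/-- the innermost variable -/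
noncomputable def bu (O : Type*) [CommRing O] : B3 O :=
  (C (C X) : Polynomial (Polynomial (Polynomial O)))
/-- the middle variable -/
noncomputable def bs (O : Type*) [CommRing O] : B3 O :=
  (C X : Polynomial (Polynomial (Polynomial O)))
/-- the outermost variable -/
noncomputable def bw (O : Type*) [CommRing O] : B3 O :=
  (X : Polynomial (Polynomial (Polynomial O)))

/-- a ring homomorphism out of `O[u][s][w]` -/
noncomputable def evB {O S : Type*} [CommRing O] [CommRing S] (f : O →+* S) (u s w : S) :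
    B3 O →+* S :=
  (eval₂RingHom (eval₂RingHom (eval₂RingHom f u) s) w :
    Polynomial (Polynomial (Polynomial O)) →+* S)

section

variable {O S : Type*} [CommRing O] [CommRing S] (f : O →+* S) (u s w : S)

theorem e3_u : (eval₂RingHom (eval₂RingHom (eval₂RingHom f u) s) w :
    Polynomial (Polynomial (Polynomial O)) →+* S) (C (C X)) = u := by simp

theorem e3_s : (eval₂RingHom (eval₂RingHom (eval₂RingHom f u) s) w :
    Polynomial (Polynomial (Polynomial O)) →+* S) (C X) = s := by simp

theorem e3_w : (eval₂RingHom (eval₂RingHom (eval₂RingHom f u) s) w :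
    Polynomial (Polynomial (Polynomial O)) →+* S) X = w := by simp

theorem e3_C (a : O) : (eval₂RingHom (eval₂RingHom (eval₂RingHom f u) s) w :
    Polynomial (Polynomial (Polynomial O)) →+* S) (C (C (C a))) = f a := by simp

theorem evB_u : evB f u s w (bu O) = u := e3_u f u s w

theorem evB_s : evB f u s w (bs O) = s := e3_s f u s w

theorem evB_w : evB f u s w (bw O) = w := e3_w f u s w

theorem evB_alg (a : O) : evB f u s w (algebraMap O (B3 O) a) = f a := e3_C f u s w a

theorem B3_hom_ext {g h : B3 O →+* S} (h1 : ∀ a, g (algebraMap O (B3 O) a) =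
    h (algebraMap O (B3 O) a)) (h2 : g (bu O) = h (bu O)) (h3 : g (bs O) = h (bs O))
    (h4 : g (bw O) = h (bw O)) : g = h := by
  have := Polynomial.ringHom_ext' (R := O[X][X]) (S := S) (f := g) (g := h) (by
    refine Polynomial.ringHom_ext' (by
      refine Polynomial.ringHom_ext' ?_ h2
      ext a
      exact h1 a) h3) h4
  exact this

end

variable (O : Type*) [CommRing O] (c d : O)

/-- the element `H` of the base ring -/
noncomputable def HH : B3 O := pH (algebraMap O (B3 O) c) (algebraMap O (B3 O) d)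
  (bu O) (bs O) (bw O)

/-- the element `(1 - s)⁵ h_c` of the base ring -/
noncomputable def HP : B3 O := pHp (algebraMap O (B3 O) c) (bs O) (bw O)

/-- the defining polynomial -/
noncomputable def gT : Polynomial (B3 O) := X ^ 5 - C (HH O c d)

/-- the model -/
abbrev TT : Type _ := AdjoinRoot (gT O c d)

theorem gT_monic : (gT O c d).Monic := monic_X_pow_sub_C _ (by norm_num)

instance : Module.Free O (TT O c d) :=
  haveI : Module.Free (B3 O) (TT O c d) :=
    Module.Free.of_basis (AdjoinRoot.powerBasis' (gT_monic O c d)).basis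
  Module.Free.trans (R := O) (S := B3 O) (M := TT O c d)

theorem map_pH {S S' : Type*} [CommRing S] [CommRing S'] (f : S →+* S') (c d u s w : S) :
    f (pH c d u s w) = pH (f c) (f d) (f u) (f s) (f w) := by
  simp only [pH, pHp, Vt, map_add, map_sub, map_mul, map_pow, map_one, map_ofNat]

theorem map_pHp {S S' : Type*} [CommRing S] [CommRing S'] (f : S →+* S') (c s w : S) :
    f (pHp c s w) = pHp (f c) (f s) (f w) := by
  simp only [pHp, map_add, map_sub, map_mul, map_pow, map_one]

/-- the substitution `u ↦ z u` on the base ring -/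
noncomputable def sB (z : O) : B3 O →ₐ[O] B3 O where
  toRingHom := evB (algebraMap O (B3 O)) (algebraMap O (B3 O) z * bu O) (bs O) (bw O)
  commutes' a := evB_alg _ _ _ _ a

theorem sB_HH (z : O) (hz : z ^ 5 = 1) : sB O z (HH O c d) = HH O c d := by
  change (evB (algebraMap O (B3 O)) (algebraMap O (B3 O) z * bu O) (bs O) (bw O)) _ = _
  unfold HH
  rw [map_pH, evB_alg, evB_alg, evB_u, evB_s, evB_w]
  have h : (algebraMap O (B3 O) z * bu O) ^ 5 = bu O ^ 5 := by
    rw [mul_pow, ← map_pow, hz, map_one, one_mul]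
  unfold pH
  rw [h]

theorem eval_gT {S : Type*} [CommRing S] (i : B3 O →+* S) (x : S) :
    (gT O c d).eval₂ i x = x ^ 5 - i (HH O c d) := by
  unfold gT
  rw [eval₂_sub, eval₂_pow, eval₂_X, eval₂_C]

theorem root_five : AdjoinRoot.root (gT O c d) ^ 5 = AdjoinRoot.of (gT O c d) (HH O c d) := by
  have h1 := AdjoinRoot.eval₂_root (gT O c d)
  rw [eval_gT] at h1
  exact sub_eq_zero.1 h1

/-- the automorphism `u ↦ z u` of the model -/
noncomputable def sT (z : O) (hz : z ^ 5 = 1) : TT O c d →ₐ[O] TT O c d :=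
  AdjoinRoot.liftAlgHom (gT O c d)
    ((IsScalarTower.toAlgHom O (B3 O) (TT O c d)).comp (sB O z)) (AdjoinRoot.root _) (by
      rw [eval_gT, root_five]
      change _ - (AdjoinRoot.of (gT O c d)) (sB O z (HH O c d)) = 0
      rw [sB_HH O c d z hz, sub_self])

theorem sT_root (z : O) (hz : z ^ 5 = 1) :
    sT O c d z hz (AdjoinRoot.root _) = AdjoinRoot.root _ := by
  unfold sT
  rw [AdjoinRoot.liftAlgHom_root]

theorem sT_of (z : O) (hz : z ^ 5 = 1) (a : B3 O) :
    sT O c d z hz (AdjoinRoot.of _ a) = AdjoinRoot.of _ (sB O z a) := by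
  unfold sT
  rw [AdjoinRoot.liftAlgHom_of]
  rfl

end Model

end Pool.Agent.Work.MP_c5a777_ag.Five
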