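import Pool.Agent.Work.MP_c5a777_ag.Five.Curve

/-!
Rational parametrisation of the surface `h_b(x, y) = (b - c) m⁵`, `c = 5 e - 3`.
-/

namespace Pool.Agent.Work.MP_c5a777_ag.Five

section Poly

variable {R : Type*} [CommRing R] (e b T m : R)

/-- auxiliary polynomial -/
def fa1 : R := (T ^ 2 + 2 * T - 1 - e) * m ^ 2 +
  (2 * T ^ 2 - T * b + (2 * e - 3) * T + (1 - e)) * m + (T ^ 2 - T * b - T)
/-- auxiliary polynomial -/
def fa0 : R := (-(2 + e) * T ^ 2 + (2 + 2 * e) * T - 1) * m ^ 4 +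
  (T ^ 2 * b + (2 - 5 * e) * T ^ 2 + 2 * e * T - (1 - e)) * m ^ 3 +
  ((1 + e) * T ^ 2 * b - (1 - e) * T ^ 2 + (2 - 2 * e) * T - (1 - e)) * m ^ 2 +
  ((1 + e) * T ^ 2 * b - T * b) * m + (T ^ 2 * b - T * b)
/-- auxiliary polynomial -/
def fal : R := -(T + 1) * m ^ 2 + (1 - e - 2 * T) * m - T
/-- auxiliary polynomial -/
def fb1 : R := ((2 + e) * T - (1 + e)) * m ^ 4 + (-T * b + (5 * e - 2) * T - e) * m ^ 3 +
  (-(1 + e) * T * b + (1 - e) * T - (1 - e)) * m ^ 2 - (1 + e) * T * b * m - T * b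
/-- coefficient of the conic -/
def fA2 : R := T ^ 4 + 4 * T ^ 3 - 6 * (1 + e) * T ^ 2 + 4 * (1 + e) * T - (2 - e)
/-- coefficient of the conic -/
def fA1 : R := 2 * T ^ 4 - 2 * T ^ 3 * b + (4 * e - 6) * T ^ 3 + (6 - 6 * e) * T ^ 2 +
  (2 + 2 * e) * T * b - (2 - 2 * e) * T
/-- coefficient of the conic -/
def fA0 : R := T ^ 4 - 2 * T ^ 3 * b - 2 * T ^ 3 + T ^ 2 * b ^ 2 + 6 * T ^ 2 * b + T ^ 2 -
  4 * T * b
/-- the multiplier of `T` -/
def fG2 (x y : R) : R := (m + 1) * x ^ 2 - ((1 + e) * m ^ 3 + (2 * e - 1) * m ^ 2) * x -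
  (m ^ 2 + e * m + 1) * y + (1 + e) * m ^ 5 - (2 * e - 1) * m ^ 3
/-- numerator of the section of the conic -/
def fq (z : R) : R := (z - 1) * T ^ 3 + b * T ^ 2 + (2 - 2 * z - z ^ 2 - z ^ 3) * T ^ 2 -
  z ^ 4 * b * T + (2 * z + 2 * z ^ 2 + 3 * z ^ 3) * T + (-1 - z - z ^ 2 - 2 * z ^ 3)

theorem surf_mul (x y : R) (he : e ^ 2 + e = 1) (hx : x ^ 2 = fa1 e b T m * x + fa0 e b T m)
    (hy : (m + 1) * y = fal e T m * x + fb1 e b T m) :
    (m + 1) ^ 2 * (hk b x y - (b - (5 * e - 3)) * m ^ 5) = 0 := by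
  unfold fa1 fa0 at hx
  unfold fal fb1 at hy
  unfold hk gq
  linear_combination
    (((m + 1) * y + ((-(T + 1) * m ^ 2 + (1 - e - 2 * T) * m - T) * x +
      (((2 + e) * T - (1 + e)) * m ^ 4 + (-T * b + (5 * e - 2) * T - e) * m ^ 3 +
        (-(1 + e) * T * b + (1 - e) * T - (1 - e)) * m ^ 2 - (1 + e) * T * b * m - T * b))) +
      (1 + b) * x * (m + 1) + b * (m + 1)) * hy +
    ((-m^2 - 2*m - 1) * x + (-e*b*m^2 - e*b*m + e*m^4 + 5*e*m^3 - e*m^2 - b*m^3 - b*m^2 - b*m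
      - b + 2*m^4 - 2*m^3 + m^2)) * hx +
    (-b*m^5 + b*m^4*x - 2*b*m^4 + 2*b*m^3*x - b*m^3 + b*m^2*x + m^8 + 3*m^7 - m^6*x + 5*m^6 -
      4*m^5*x + 2*m^5 - 2*m^4*x - m^3*x + m^2*x^2) * he

theorem T_mul (x y : R) (he : e ^ 2 + e = 1) (hx : x ^ 2 = fa1 e b T m * x + fa0 e b T m)
    (hy : (m + 1) * y = fal e T m * x + fb1 e b T m) :
    (m + 1) * (T * fG2 e m x y + gq x y - m ^ 5) = 0 := by
  unfold fa1 fa0 at hx
  unfold fal fb1 at hy
  unfold fG2 gq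
  linear_combination
    (-e*T*m - T*m^2 - T + x + 1) * hy + (-e*m - m^2 - 1) * hx +
    (-T*m^5 - T*m^4 + T*m^3 - T*m^2*x - m^4 + m^3*x - m^3 + m^2*x) * he

theorem disc_eq (he : e ^ 2 + e = 1) : fa1 e b T m ^ 2 + 4 * fa0 e b T m =
    (m + 1) ^ 2 * (fA2 e T * m ^ 2 + fA1 e b T * m + fA0 b T) := by
  unfold fa1 fa0 fA2 fA1 fA0
  linear_combination (4*T^2*m^2 - 4*T*m^3 - 4*T*m^2 + m^4 + 2*m^3 + m^2) * he

theorem e_rel (z : R) (hz : z ^ 4 + z ^ 3 + z ^ 2 + z + 1 = 0) :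
    (z + z ^ 4) ^ 2 + (z + z ^ 4) = 1 := by
  linear_combination (z^4 - z^3 + 2*z - 1) * hz

theorem q_rel (z : R) (hz : z ^ 4 + z ^ 3 + z ^ 2 + z + 1 = 0) :
    fq b T z ^ 2 = fA2 (z + z ^ 4) T * (z * (1 - T)) ^ 2 +
      fA1 (z + z ^ 4) b T * (z * (1 - T)) * (T - z ^ 4) + fA0 b T * (T - z ^ 4) ^ 2 := by
  unfold fq fA2 fA1 fA0
  linear_combination (
    -2*z^5*b*T^2 + 2*z^5*b*T - 4*z^5*T^4 + 10*z^5*T^3 - 8*z^5*T^2 + 2*z^5*T + 2*z^4*b*T^3 -
    4*z^4*b*T^2 + 2*z^4*b*T + 3*z^4*T^4 - 8*z^4*T^3 + 7*z^4*T^2 - 2*z^4*T + z^3*T^4 -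
    2*z^3*T^3 + z^3*T^2 + 3*z^2*T^4 - 12*z^2*T^3 + 18*z^2*T^2 - 12*z^2*T + 3*z^2 + 2*z*b*T^3 -
    2*z*b*T^2 + 2*z*T^5 - 3*z*T^4 - 2*z*T^3 + 6*z*T^2 - 4*z*T + z - 2*b*T^4 + 4*b*T^3 -
    2*b*T^2 - 2*T^5 + 3*T^4 + 2*T^3 - 4*T^2 + 1) * hz

end Poly

section Field

variable {F : Type*} [Field F] (z b T p : F)

/-- abscissa of the section of the conic bundle -/
def cm0 : F := z * (1 - T) / (T - z ^ 4)
/-- ordinate of the section of the conic bundle -/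
def cZ0 : F := fq b T z / (T - z ^ 4)
/-- denominator of the parametrisation of the conic -/
def cD : F := 1 - fA2 (z + z ^ 4) T * p ^ 2
/-- first coordinate on the conic -/
def cm : F := (cm0 z T - 2 * cZ0 z b T * p +
  (fA2 (z + z ^ 4) T * cm0 z T + fA1 (z + z ^ 4) b T) * p ^ 2) / cD z T p
/-- second coordinate on the conic -/
def cZ : F := (-cZ0 z b T + (2 * fA2 (z + z ^ 4) T * cm0 z T + fA1 (z + z ^ 4) b T) * p -
  cZ0 z b T * fA2 (z + z ^ 4) T * p ^ 2) / cD z T p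
/-- first coordinate on the surface -/
def cx : F := (fa1 (z + z ^ 4) b T (cm z b T p) + (cm z b T p + 1) * cZ z b T p) / 2
/-- second coordinate on the surface -/
def cy : F := (fal (z + z ^ 4) T (cm z b T p) * cx z b T p + fb1 (z + z ^ 4) b T (cm z b T p)) /
  (cm z b T p + 1)

variable (hz : z ^ 4 + z ^ 3 + z ^ 2 + z + 1 = 0) (hT : T - z ^ 4 ≠ 0) (hD : cD z T p ≠ 0)
  (h2 : (2 : F) ≠ 0) (hm : cm z b T p + 1 ≠ 0)

include hz hT in
theorem conic0 : cZ0 z b T ^ 2 = fA2 (z + z ^ 4) T * cm0 z T ^ 2 +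
    fA1 (z + z ^ 4) b T * cm0 z T + fA0 b T := by
  unfold cZ0 cm0
  have h := q_rel b T z hz
  generalize fA2 (z + z ^ 4) T = A2 at *
  generalize fA1 (z + z ^ 4) b T = A1 at *
  generalize fA0 b T = A0 at *
  generalize fq b T z = q at *
  field_simp
  linear_combination h

include hz hT hD in
theorem conic1 : cZ z b T p ^ 2 = fA2 (z + z ^ 4) T * cm z b T p ^ 2 +
    fA1 (z + z ^ 4) b T * cm z b T p + fA0 b T := by
  have h0 := conic0 z b T hz hT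
  unfold cD at hD
  unfold cZ cm cD
  generalize cZ0 z b T = Z0 at *
  generalize cm0 z T = m0 at *
  generalize fA2 (z + z ^ 4) T = A2 at *
  generalize fA1 (z + z ^ 4) b T = A1 at *
  generalize fA0 b T = A0 at *
  field_simp
  linear_combination (1 - A2 * p ^ 2) ^ 2 * h0

include hz hT hD h2 in
theorem quad_x : cx z b T p ^ 2 = fa1 (z + z ^ 4) b T (cm z b T p) * cx z b T p +
    fa0 (z + z ^ 4) b T (cm z b T p) := by
  have h1 := conic1 z b T p hz hT hD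
  have h3 := disc_eq (z + z ^ 4) b T (cm z b T p) (e_rel z hz)
  unfold cx
  generalize fa1 (z + z ^ 4) b T (cm z b T p) = a1 at *
  generalize fa0 (z + z ^ 4) b T (cm z b T p) = a0 at *
  generalize fA2 (z + z ^ 4) T = A2 at *
  generalize fA1 (z + z ^ 4) b T = A1 at *
  generalize fA0 b T = A0 at *
  field_simp
  linear_combination (cm z b T p + 1) ^ 2 * h1 - h3

include hm in
theorem lin_y : (cm z b T p + 1) * cy z b T p = fal (z + z ^ 4) T (cm z b T p) * cx z b T p +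
    fb1 (z + z ^ 4) b T (cm z b T p) := by
  unfold cy
  field_simp

include hz hT hD h2 hm in
theorem surface : hk b (cx z b T p) (cy z b T p) =
    (b - (5 * (z + z ^ 4) - 3)) * cm z b T p ^ 5 := by
  have h := surf_mul (z + z ^ 4) b T (cm z b T p) (cx z b T p) (cy z b T p) (e_rel z hz)
    (quad_x z b T p hz hT hD h2) (lin_y z b T p hm)
  exact sub_eq_zero.1 ((mul_eq_zero.1 h).resolve_left (pow_ne_zero 2 hm))

include hz hT hD h2 hm in
theorem T_eq : T * fG2 (z + z ^ 4) (cm z b T p) (cx z b T p) (cy z b T p) =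
    cm z b T p ^ 5 - gq (cx z b T p) (cy z b T p) := by
  have h := T_mul (z + z ^ 4) b T (cm z b T p) (cx z b T p) (cy z b T p) (e_rel z hz)
    (quad_x z b T p hz hT hD h2) (lin_y z b T p hm)
  linear_combination (mul_eq_zero.1 h).resolve_left hm

include h2 in
theorem Z_eq : (cm z b T p + 1) * cZ z b T p =
    2 * cx z b T p - fa1 (z + z ^ 4) b T (cm z b T p) := by
  unfold cx
  generalize fa1 (z + z ^ 4) b T (cm z b T p) = a1 at *
  field_simp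
  ring

include hD in
theorem p_eq : p * (cZ z b T p - cZ0 z b T) = cm z b T p - cm0 z T := by
  unfold cD at hD
  unfold cZ cm cD
  generalize cZ0 z b T = Z0 at *
  generalize cm0 z T = m0 at *
  generalize fA2 (z + z ^ 4) T = A2 at *
  generalize fA1 (z + z ^ 4) b T = A1 at *
  generalize hE : 1 - A2 * p ^ 2 = E at *
  rw [div_sub' hD, div_sub' hD, mul_div_assoc', div_left_inj' hD, ← hE]
  ring

end Field

end Pool.Agent.Work.MP_c5a777_ag.Five
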